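import Pool.Agent.Q246.VR.Dim

/-! Determinants on the invariants and relations between permutation characters. -/

set_option autoImplicit false

namespace Pool.Agent.Q246.VR

open scoped Classical
open Module.End

section
variable {M : Type} [AddCommGroup M] [Module ℂ M] [FiniteDimensional ℂ M]

/-- the determinant as a product over the generalized eigenspaces -/
theorem det_eq_prod (f : Module.End ℂ M) (Λ : Finset ℂ) (hΛ : f.charpoly.roots.toFinset ⊆ Λ) :
    LinearMap.det f = ∏ μ ∈ Λ, μ ^ Module.finrank ℂ (f.maxGenEigenspace μ) := by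
  rw [Module.End.det_eq_prod_roots_charpoly_of_splits (IsAlgClosed.splits _),
    Finset.prod_multiset_count]
  refine (Finset.prod_subset hΛ fun μ _ hμ => ?_).trans (Finset.prod_congr rfl fun μ _ => ?_)
  · rw [Multiset.mem_toFinset] at hμ
    rw [Multiset.count_eq_zero_of_notMem hμ, pow_zero]
  · rw [LinearMap.finrank_maxGenEigenspace_eq, Polynomial.count_roots]

end

section
variable {G : Type} [Group G] {M : Type} [AddCommGroup M] [Module ℂ M] [FiniteDimensional ℂ M]
  {ρ : G →* (M →ₗ[ℂ] M)} {N : Subgroup G} [N.Normal] [Finite (G ⧸ N)]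

theorem maps_inv {u : M →ₗ[ℂ] M} (hu : ∀ g m, u (ρ g m) = ρ g (u m)) (H : Subgroup G) :
    ∀ m ∈ inv ρ H, u m ∈ inv ρ H := fun m hm h hh => by rw [← hu, hm h hh]

/-- the restriction to the invariants -/
noncomputable def uH {u : M →ₗ[ℂ] M} (hu : ∀ g m, u (ρ g m) = ρ g (u m)) (H : Subgroup G) :
    Module.End ℂ (inv ρ H) := u.restrict (maps_inv hu H)

/-- the action on a generalized eigenspace -/
noncomputable def rhoE {u : M →ₗ[ℂ] M} (hu : ∀ g m, u (ρ g m) = ρ g (u m)) (μ : ℂ) :
    G →* ((maxGenEigenspace (u : Module.End ℂ M) μ) →ₗ[ℂ]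
      (maxGenEigenspace (u : Module.End ℂ M) μ)) where
  toFun g := (ρ g).restrict (mapsTo_maxGenEigenspace_of_comm (f := (u : Module.End ℂ M))
    (g := (ρ g : Module.End ℂ M)) (LinearMap.ext fun m => hu g m) μ)
  map_one' := by
    apply LinearMap.ext
    intro x
    apply Subtype.ext
    change ρ 1 x.1 = x.1
    rw [map_one]
    rfl
  map_mul' a b := by
    apply LinearMap.ext
    intro x
    apply Subtype.ext
    change ρ (a * b) x.1 = ρ a (ρ b x.1)
    rw [map_mul]
    rfl

theorem finrank_gen {u : M →ₗ[ℂ] M} (hu : ∀ g m, u (ρ g m) = ρ g (u m)) (H : Subgroup G) (μ : ℂ) :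
    Module.finrank ℂ (maxGenEigenspace (uH hu H) μ) = Module.finrank ℂ (inv (rhoE hu μ) H) := by
  have h1 : maxGenEigenspace (uH hu H) μ =
      (maxGenEigenspace (u : Module.End ℂ M) μ).comap (inv ρ H).subtype :=
    genEigenspace_restrict (u : Module.End ℂ M) (inv ρ H) ⊤ μ (maps_inv hu H)
  have h2 : inv (rhoE hu μ) H =
      (inv ρ H).comap (maxGenEigenspace (u : Module.End ℂ M) μ).subtype := by
    ext x
    constructor
    · intro hx h hh
      exact congrArg Subtype.val (hx h hh)
    · intro hx h hh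
      exact Subtype.ext (hx h hh)
  rw [h1, h2, ← Submodule.finrank_map_subtype_eq, ← Submodule.finrank_map_subtype_eq
    (maxGenEigenspace (u : Module.End ℂ M) μ), Submodule.map_comap_subtype,
    Submodule.map_comap_subtype, inf_comm]

/-- **Determinants and relations.** -/
theorem det_relation (hN : ∀ n ∈ N, ρ n = 1) {u : M →ₗ[ℂ] M}
    (hu : ∀ g m, u (ρ g m) = ρ g (u m)) (hinj : Function.Injective u) {ι : Type} [Fintype ι]
    (H : ι → Subgroup G) (hNH : ∀ i, N ≤ H i) [∀ i, Finite (G ⧸ H i)] (c : ι → ℤ)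
    (h : ∀ g : G, ∑ i, c i * (cos (H i) g : ℤ) = 0) :
    ∏ i, LinearMap.det (uH hu (H i)) ^ (c i) = 1 := by
  let Λ : Finset ℂ := Finset.univ.biUnion fun i => (uH hu (H i)).charpoly.roots.toFinset
  have hΛ : ∀ i, (uH hu (H i)).charpoly.roots.toFinset ⊆ Λ := fun i =>
    Finset.subset_biUnion_of_mem (fun i => (uH hu (H i)).charpoly.roots.toFinset)
      (Finset.mem_univ i)
  have hne : ∀ μ ∈ Λ, μ ≠ 0 := by
    rintro μ hμ rfl
    obtain ⟨i, -, hi⟩ := Finset.mem_biUnion.1 hμ
    rw [Multiset.mem_toFinset, Polynomial.mem_roots'] at hi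
    have h1 : (uH hu (H i)).HasEigenvalue 0 := by
      rw [Module.End.hasEigenvalue_iff_isRoot_charpoly]
      exact hi.2
    obtain ⟨x, hx⟩ := h1.exists_hasEigenvector
    have h2 := hx.apply_eq_smul
    rw [zero_smul] at h2
    have h3 : u x.1 = 0 := congrArg Subtype.val h2
    exact hx.2 (Subtype.ext (hinj (h3.trans (map_zero u).symm)))
  have h1 : ∀ i, LinearMap.det (uH hu (H i)) ^ (c i) =
      ∏ μ ∈ Λ, μ ^ (c i * (Module.finrank ℂ (inv (rhoE hu μ) (H i)) : ℤ)) := by
    intro i
    rw [det_eq_prod _ Λ (hΛ i), ← Finset.prod_zpow]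
    refine Finset.prod_congr rfl fun μ _ => ?_
    rw [finrank_gen, ← zpow_natCast, ← zpow_mul, mul_comm]
  rw [Finset.prod_congr rfl fun i _ => h1 i, Finset.prod_comm]
  refine Finset.prod_eq_one fun μ hμ => ?_
  have hN' : ∀ n ∈ N, rhoE hu μ n = 1 := by
    intro n hn
    apply LinearMap.ext
    intro x
    apply Subtype.ext
    change ρ n x.1 = x.1
    rw [hN n hn]
    rfl
  have h2 := dim_relation hN' H hNH c h
  have h3 : ∀ s : Finset ι, ∏ i ∈ s, μ ^ (c i * (Module.finrank ℂ (inv (rhoE hu μ) (H i)) : ℤ)) =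
      μ ^ (∑ i ∈ s, c i * (Module.finrank ℂ (inv (rhoE hu μ) (H i)) : ℤ)) := by
    intro s
    induction s using Finset.induction with
    | empty => simp
    | insert a s ha ih => rw [Finset.prod_insert ha, Finset.sum_insert ha, zpow_add₀ (hne μ hμ), ih]
  rw [h3, h2, zpow_zero]

end

end Pool.Agent.Q246.VR
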