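import Mathlib

/-! Dimensions of invariants and permutation characters. -/

set_option autoImplicit false

namespace Pool.Agent.Q246.VR

open scoped Classical

section
variable {G : Type} [Group G] {M : Type} [AddCommGroup M] [Module ℂ M]

/-- the invariants of a subgroup -/
def inv (ρ : G →* (M →ₗ[ℂ] M)) (H : Subgroup G) : Submodule ℂ M where
  carrier := {m | ∀ h ∈ H, ρ h m = m}
  add_mem' := fun {a b} ha hb h hh => by rw [map_add, ha h hh, hb h hh]
  zero_mem' := fun h _ => map_zero _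
  smul_mem' := fun c m hm h hh => by rw [map_smul, hm h hh]

theorem mem_inv {ρ : G →* (M →ₗ[ℂ] M)} {H : Subgroup G} {m : M} :
    m ∈ inv ρ H ↔ ∀ h ∈ H, ρ h m = m := Iff.rfl

theorem inv_mono (ρ : G →* (M →ₗ[ℂ] M)) {H H' : Subgroup G} (h : H ≤ H') :
    inv ρ H' ≤ inv ρ H := fun _ hm x hx => hm x (h hx)

/-- the number of fixed cosets -/
noncomputable def cos (H : Subgroup G) (g : G) : ℕ := Nat.card {x : G ⧸ H // g • x = x}

variable (ρ : G →* (M →ₗ[ℂ] M)) (N : Subgroup G) [N.Normal] [Finite (G ⧸ N)]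

theorem out_eq (hN : ∀ n ∈ N, ρ n = 1) (g : G) : ρ (g : G ⧸ N).out = ρ g := by
  obtain ⟨n, hn⟩ := QuotientGroup.mk_out_eq_mul N g
  rw [hn, map_mul, hN _ n.2, mul_one]

theorem out_mem {H : Subgroup G} (hNH : N ≤ H) (g : G) : (g : G ⧸ N).out ∈ H ↔ g ∈ H := by
  obtain ⟨n, hn⟩ := QuotientGroup.mk_out_eq_mul N g
  rw [hn]
  exact Subgroup.mul_mem_cancel_right H (hNH n.2)

noncomputable instance : Fintype (G ⧸ N) := Fintype.ofFinite _

/-- the sum over the image of `H` -/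
noncomputable def sumH (H : Subgroup G) (m : M) : M :=
  ∑ q : G ⧸ N with q.out ∈ H, ρ q.out m

variable {ρ N}

theorem reindex {A : Type} [AddCommMonoid A] (g : G) (f : G ⧸ N → A) :
    ∑ q : G ⧸ N, f ((g : G ⧸ N) * q) = ∑ q : G ⧸ N, f q :=
  Fintype.sum_bijective _ (Group.mulLeft_bijective (g : G ⧸ N)) _ _ fun _ => rfl

theorem out_mul_mem {H : Subgroup G} (hNH : N ≤ H) (h : G) (hh : h ∈ H) (q : G ⧸ N) :
    ((h : G ⧸ N) * q).out ∈ H ↔ q.out ∈ H := by
  have h1 : (h : G ⧸ N) * q = ((h * q.out : G) : G ⧸ N) := by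
    rw [QuotientGroup.mk_mul, QuotientGroup.out_eq']
  rw [h1, out_mem N hNH]
  exact Subgroup.mul_mem_cancel_left H hh

theorem out_mul (hN : ∀ n ∈ N, ρ n = 1) (h : G) (q : G ⧸ N) :
    ρ ((h : G ⧸ N) * q).out = ρ h * ρ q.out := by
  have h1 : (h : G ⧸ N) * q = ((h * q.out : G) : G ⧸ N) := by
    rw [QuotientGroup.mk_mul, QuotientGroup.out_eq']
  rw [h1, out_eq ρ N hN, map_mul]

theorem sumH_mem (hN : ∀ n ∈ N, ρ n = 1) {H : Subgroup G} (hNH : N ≤ H) (m : M) :
    sumH ρ N H m ∈ inv ρ H := by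
  intro h hh
  unfold sumH
  rw [map_sum, Finset.sum_filter, Finset.sum_filter,
    ← reindex h (fun q => if q.out ∈ H then ρ q.out m else 0)]
  refine Finset.sum_congr rfl fun q _ => ?_
  simp only [out_mul_mem hNH h hh, out_mul hN, Module.End.mul_apply]

/-- the order of the image of `H` -/
noncomputable def ordH (N H : Subgroup G) [N.Normal] [Finite (G ⧸ N)] : ℕ :=
  (Finset.univ.filter fun q : G ⧸ N => q.out ∈ H).card

theorem ordH_pos {H : Subgroup G} (hNH : N ≤ H) : 0 < ordH N H := by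
  refine Finset.card_pos.2 ⟨((1 : G) : G ⧸ N), Finset.mem_filter.2 ⟨Finset.mem_univ _, ?_⟩⟩
  exact (out_mem N hNH 1).2 (one_mem H)

theorem sumH_inv {H : Subgroup G} {m : M} (hm : m ∈ inv ρ H) :
    sumH ρ N H m = (ordH N H : ℂ) • m := by
  unfold sumH ordH
  rw [Finset.sum_congr rfl fun q hq => hm _ (Finset.mem_filter.1 hq).2, Finset.sum_const,
    Nat.cast_smul_eq_nsmul]

/-- the order of the image of `H` times its index -/
theorem ordH_mul {H : Subgroup G} (hNH : N ≤ H) [Finite (G ⧸ H)] :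
    Nat.card (G ⧸ H) * ordH N H = Nat.card (G ⧸ N) := by
  have h1 : ordH N H = Nat.card (H.map (QuotientGroup.mk' N)) := by
    unfold ordH
    rw [← Fintype.card_subtype, ← Nat.card_eq_fintype_card]
    refine Nat.card_congr (Equiv.subtypeEquivRight fun q => ?_)
    rw [Subgroup.mem_map]
    constructor
    · intro h
      exact ⟨q.out, h, QuotientGroup.out_eq' q⟩
    · rintro ⟨x, hx, rfl⟩
      exact (out_mem N hNH x).2 hx
  have h2 : Nat.card (G ⧸ H) = (H.map (QuotientGroup.mk' N)).index := by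
    rw [← Subgroup.index_eq_card, Subgroup.index_map_eq _ (QuotientGroup.mk'_surjective N)
      (by rw [QuotientGroup.ker_mk']; exact hNH)]
  rw [h1, h2, mul_comm, Subgroup.card_mul_index]

variable [FiniteDimensional ℂ M]

theorem trace_conj (g x : G) :
    LinearMap.trace ℂ M (ρ (g * x * g⁻¹)) = LinearMap.trace ℂ M (ρ x) := by
  rw [map_mul ρ, LinearMap.trace_mul_comm, ← map_mul ρ, inv_mul_cancel_left]

/-- **The dimension of the invariants.** -/
theorem dim_formula (hN : ∀ n ∈ N, ρ n = 1) {H : Subgroup G} (hNH : N ≤ H) [Finite (G ⧸ H)] :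
    ∑ q : G ⧸ N, LinearMap.trace ℂ M (ρ q.out) * (cos H q.out : ℂ) =
      Nat.card (G ⧸ N) * (Module.finrank ℂ (inv ρ H) : ℂ) := by
  have hpos := ordH_pos (N := N) hNH
  have hpos' : (ordH N H : ℂ) ≠ 0 := by exact_mod_cast hpos.ne'
  -- the projection
  let E : M →ₗ[ℂ] M := (ordH N H : ℂ)⁻¹ • ∑ q : G ⧸ N with q.out ∈ H, ρ q.out
  have hE : ∀ m, E m = (ordH N H : ℂ)⁻¹ • sumH ρ N H m := by
    intro m
    simp only [E, LinearMap.smul_apply, LinearMap.sum_apply]
    rfl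
  have hproj : LinearMap.IsProj (inv ρ H) E := by
    refine ⟨fun m => ?_, fun m hm => ?_⟩
    · rw [hE]
      exact Submodule.smul_mem _ _ (sumH_mem hN hNH m)
    · rw [hE, sumH_inv hm, smul_smul, inv_mul_cancel₀ hpos', one_smul]
  have htr := LinearMap.IsProj.trace hproj
  have htr' : (ordH N H : ℂ) * (Module.finrank ℂ (inv ρ H) : ℂ) =
      ∑ q : G ⧸ N with q.out ∈ H, LinearMap.trace ℂ M (ρ q.out) := by
    rw [← htr]
    simp only [E, map_smul, map_sum, smul_eq_mul]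
    rw [mul_inv_cancel_left₀ hpos']
  -- the count
  have : Fintype (G ⧸ H) := Fintype.ofFinite _
  have hcos : ∀ g : G, (cos H g : ℂ) = ∑ x : G ⧸ H, if g • x = x then (1 : ℂ) else 0 := by
    intro g
    unfold cos
    rw [Nat.card_eq_fintype_card, Fintype.card_subtype, Finset.sum_boole]
  have hinner : ∀ x : G ⧸ H, ∑ q : G ⧸ N, LinearMap.trace ℂ M (ρ q.out) *
      (if q.out • x = x then (1 : ℂ) else 0) =
        ∑ q : G ⧸ N with q.out ∈ H, LinearMap.trace ℂ M (ρ q.out) := by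
    intro x
    obtain ⟨g, rfl⟩ := QuotientGroup.mk_surjective x
    have hb : Function.Bijective fun q : G ⧸ N => (g : G ⧸ N) * q * ((g⁻¹ : G) : G ⧸ N) :=
      (Group.mulRight_bijective _).comp (Group.mulLeft_bijective _)
    rw [Finset.sum_filter, ← Fintype.sum_bijective _ hb
      (fun q => LinearMap.trace ℂ M (ρ ((g : G ⧸ N) * q * ((g⁻¹ : G) : G ⧸ N)).out) *
      (if ((g : G ⧸ N) * q * ((g⁻¹ : G) : G ⧸ N)).out • (g : G ⧸ H) = (g : G ⧸ H) then (1 : ℂ)
        else 0)) _ fun _ => rfl]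
    refine Finset.sum_congr rfl fun q _ => ?_
    have e1 : (g : G ⧸ N) * q * ((g⁻¹ : G) : G ⧸ N) = ((g * q.out * g⁻¹ : G) : G ⧸ N) := by
      rw [QuotientGroup.mk_mul, QuotientGroup.mk_mul, QuotientGroup.out_eq']
    have e2 : ((g * q.out * g⁻¹ : G) : G ⧸ N).out • (g : G ⧸ H) = (g : G ⧸ H) ↔ q.out ∈ H := by
      obtain ⟨n, hn⟩ := QuotientGroup.mk_out_eq_mul N (g * q.out * g⁻¹)
      rw [hn, MulAction.Quotient.smul_coe, QuotientGroup.eq, smul_eq_mul]
      have e3 : (g * q.out * g⁻¹ * (n : G) * g)⁻¹ * g =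
          ((q.out * (g⁻¹ * (n : G) * g)))⁻¹ := by group
      rw [e3, inv_mem_iff]
      refine Subgroup.mul_mem_cancel_right H (hNH ?_)
      have := (inferInstance : N.Normal).conj_mem n n.2 g⁻¹
      rw [inv_inv] at this
      exact this
    rw [e1, out_eq ρ N hN, trace_conj]
    simp only [e2]
    split_ifs <;> simp
  simp only [hcos, Finset.mul_sum]
  rw [Finset.sum_comm, Finset.sum_congr rfl fun x _ => hinner x, Finset.sum_const,
    Finset.card_univ, nsmul_eq_mul, ← htr', ← Nat.card_eq_fintype_card, ← mul_assoc]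
  congr 1
  rw [← Nat.cast_mul, ordH_mul hNH]

/-- relations between permutation characters give relations between dimensions -/
theorem dim_relation (hN : ∀ n ∈ N, ρ n = 1) {ι : Type} [Fintype ι] (H : ι → Subgroup G)
    (hNH : ∀ i, N ≤ H i) [∀ i, Finite (G ⧸ H i)] (c : ι → ℤ)
    (h : ∀ g : G, ∑ i, c i * (cos (H i) g : ℤ) = 0) :
    ∑ i, c i * (Module.finrank ℂ (inv ρ (H i)) : ℤ) = 0 := by
  have h1 : (Nat.card (G ⧸ N) : ℂ) * ∑ i, (c i : ℂ) * (Module.finrank ℂ (inv ρ (H i)) : ℂ) = 0 := by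
    rw [Finset.mul_sum]
    have h2 : ∀ i, (Nat.card (G ⧸ N) : ℂ) * ((c i : ℂ) * (Module.finrank ℂ (inv ρ (H i)) : ℂ)) =
        ∑ q : G ⧸ N, LinearMap.trace ℂ M (ρ q.out) * ((c i : ℂ) * (cos (H i) q.out : ℂ)) := by
      intro i
      rw [mul_left_comm, ← dim_formula hN (hNH i), Finset.mul_sum]
      exact Finset.sum_congr rfl fun q _ => by ring
    rw [Finset.sum_congr rfl fun i _ => h2 i, Finset.sum_comm]
    refine Finset.sum_eq_zero fun q _ => ?_
    rw [← Finset.mul_sum]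
    have h3 := congrArg (fun z : ℤ => (z : ℂ)) (h q.out)
    push_cast at h3
    rw [h3, mul_zero]
  have h4 : (Nat.card (G ⧸ N) : ℂ) ≠ 0 := by exact_mod_cast Nat.card_pos.ne'
  have h5 := (mul_eq_zero.1 h1).resolve_left h4
  exact_mod_cast h5

end

end Pool.Agent.Q246.VR
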