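import Pool.Agent.Q246.VR.Vol
import Pool.Agent.Q246.RP.Fin2
import Pool.Agent.Q246.BI.Van

/-! Cosets and embeddings; large Galois fields in a family. -/

set_option autoImplicit false
set_option linter.unusedSectionVars false

namespace Pool.Agent.Q246.VR

open NumberField Pool.Agent.W353.NF Pool.Agent.W401.Cheb Pool.Agent.Q246.RP
open scoped Classical

section
variable {K : Type} [Field K] [NumberField K]

/-- every embedding extends -/
theorem exists_ext (F : IntermediateField K (AlgebraicClosure K))
    (f : F →ₐ[K] AlgebraicClosure K) :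
    ∃ g : Gal(AlgebraicClosure K/K), ∀ x : F, g x = f x := by
  obtain ⟨g₀, hg₀⟩ := IntermediateField.exists_algHom_of_adjoin_splits
    (F := K) (E := AlgebraicClosure K) (K := AlgebraicClosure K) (S := Set.univ)
    (fun s _ => ⟨Algebra.IsIntegral.isIntegral s, IsAlgClosed.splits _⟩) f
    (IntermediateField.adjoin_univ K (AlgebraicClosure K))
  refine ⟨AlgEquiv.ofBijective g₀ (Algebra.IsAlgebraic.algHom_bijective g₀), fun x => ?_⟩
  exact DFunLike.congr_fun hg₀ x

/-- cosets and embeddings -/
theorem cos_eq (F : IntermediateField K (AlgebraicClosure K)) (σ : GK K) :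
    cos F.fixingSubgroup σ = fixn K F σ := by
  let e₀ : (GK K) ⧸ F.fixingSubgroup → (F →ₐ[K] AlgebraicClosure K) :=
    Quotient.lift (fun g : GK K => (g : AlgebraicClosure K →ₐ[K] AlgebraicClosure K).comp F.val)
      (fun a b hab => by
        rw [← Quotient.eq_iff_equiv] at hab
        have h1 := QuotientGroup.eq.1 hab
        apply AlgHom.ext
        intro x
        change a x = b x
        have h2 := (IntermediateField.mem_fixingSubgroup_iff _ _).1 h1 x x.2
        have h3 : a ((a⁻¹ * b) x) = a x := congrArg a h2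
        rw [← AlgEquiv.mul_apply, mul_inv_cancel_left] at h3
        exact h3.symm)
  have he₀ : ∀ (g : GK K) (x : F), e₀ (g : (GK K) ⧸ F.fixingSubgroup) x = g x := fun _ _ => rfl
  have hb : Function.Bijective e₀ := by
    constructor
    · intro a b hab
      obtain ⟨a, rfl⟩ := QuotientGroup.mk_surjective a
      obtain ⟨b, rfl⟩ := QuotientGroup.mk_surjective b
      rw [QuotientGroup.eq, IntermediateField.mem_fixingSubgroup_iff]
      intro x hx
      have h1 := DFunLike.congr_fun hab (⟨x, hx⟩ : F)
      rw [he₀, he₀] at h1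
      change a x = b x at h1
      rw [AlgEquiv.mul_apply, ← h1, ← AlgEquiv.mul_apply, inv_mul_cancel]
      rfl
    · intro f
      obtain ⟨g, hg⟩ := exists_ext F f
      refine ⟨(g : (GK K) ⧸ F.fixingSubgroup), AlgHom.ext fun x => ?_⟩
      rw [he₀]
      exact hg x
  unfold cos fixn
  refine Nat.card_congr (Equiv.subtypeEquiv (Equiv.ofBijective e₀ hb) fun x => ?_)
  obtain ⟨g, rfl⟩ := QuotientGroup.mk_surjective x
  have h1 : act K F σ (e₀ (g : (GK K) ⧸ F.fixingSubgroup)) =
      e₀ ((σ * g : GK K) : (GK K) ⧸ F.fixingSubgroup) := rfl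
  have h2 : σ • (g : (GK K) ⧸ F.fixingSubgroup) = ((σ * g : GK K) : (GK K) ⧸ F.fixingSubgroup) :=
    rfl
  change σ • (g : (GK K) ⧸ F.fixingSubgroup) = (g : (GK K) ⧸ F.fixingSubgroup) ↔
    act K F σ (e₀ (g : (GK K) ⧸ F.fixingSubgroup)) = e₀ (g : (GK K) ⧸ F.fixingSubgroup)
  rw [h1, h2]
  exact hb.1.eq_iff.symm

theorem finite_quot (F : IntermediateField K (AlgebraicClosure K)) [FiniteDimensional K F] :
    Finite ((GK K) ⧸ F.fixingSubgroup) := by
  have h1 := Pool.Agent.Q246.BI.fin_index F
  exact Subgroup.finite_quotient_of_finiteIndex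

theorem normal_fix (L : IntermediateField K (AlgebraicClosure K)) [Normal K L] :
    L.fixingSubgroup.Normal := by
  rw [← IntermediateField.restrictNormalHom_ker L]
  infer_instance

/-- the totally complex fields of degree divisible by `N` -/
def Fam (K : Type) [Field K] [NumberField K] (N : ℕ) :
    Set (IntermediateField K (AlgebraicClosure K)) :=
  {F | FiniteDimensional K F ∧ IsEmpty (F →+* ℝ) ∧ N ∣ Module.finrank K F}

theorem aWide_fam {N : ℕ} (hN : 0 < N) : AWide (Fam K N) := by
  have h1 := (aWide_complex (K := K)).inter (Pool.Agent.Q5.HR.wide_deg hN)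
  have h2 : Fam K N = {F : IntermediateField K (AlgebraicClosure K) |
        FiniteDimensional K F ∧ IsEmpty (F →+* ℝ)} ∩
      {F : IntermediateField K (AlgebraicClosure K) |
        FiniteDimensional K F ∧ N ∣ Module.finrank K F} := by
    ext F
    simp only [Fam, Set.mem_ofPred_eq, Set.mem_inter_iff]
    tauto
  rw [h2]
  exact h1

theorem one_not_cc : ¬ IsCC (1 : GK K) := by
  rintro ⟨ι, hι⟩
  obtain ⟨i, hi⟩ := IsAlgClosed.exists_pow_nat_eq (-1 : AlgebraicClosure K) two_pos
  have h1 : (ι i) ^ 2 = -1 := by rw [← map_pow, hi, map_neg, map_one]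
  have h2 : (starRingEnd ℂ) (ι i) = ι i := (hι i).symm
  rw [Complex.conj_eq_iff_real] at h2
  obtain ⟨r, hr⟩ := h2
  rw [hr] at h1
  have h3 : r ^ 2 = -1 := by exact_mod_cast h1
  nlinarith [sq_nonneg r]

/-- a large Galois field in the family -/
theorem exists_big {𝓕 : Set (IntermediateField K (AlgebraicClosure K))} (hF : AWide 𝓕)
    {ι : Type} [Finite ι] (X : ι → IntermediateField K (AlgebraicClosure K))
    (hX : ∀ i, FiniteDimensional K (X i)) :
    ∃ L ∈ 𝓕, Normal K L ∧ ∀ i, X i ≤ L := by
  obtain ⟨F₀, hF₀, -⟩ := hF.2.2 1 one_not_cc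
  have hfd₀ := hF.1 F₀ hF₀
  have hfd1 : FiniteDimensional K (⨆ i, X i : IntermediateField K (AlgebraicClosure K)) :=
    IntermediateField.finiteDimensional_iSup_of_finite
  have hfd2 : FiniteDimensional K
      (F₀ ⊔ ⨆ i, X i : IntermediateField K (AlgebraicClosure K)) :=
    IntermediateField.finiteDimensional_sup _ _
  set Y := (F₀ ⊔ ⨆ i, X i : IntermediateField K (AlgebraicClosure K)) with hY
  let L : IntermediateField K (AlgebraicClosure K) :=
    IntermediateField.normalClosure K Y (AlgebraicClosure K)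
  have hfdL : FiniteDimensional K L := inferInstance
  have hle : Y ≤ L := IntermediateField.le_normalClosure Y
  refine ⟨L, hF.2.1 F₀ hF₀ L hfdL (le_sup_left.trans hle), inferInstance, fun i =>
    ((le_iSup X i).trans le_sup_right).trans hle⟩

end

end Pool.Agent.Q246.VR
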