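import Pool.Agent.Q246.VR.Perm

/-! The relations between the leading coefficients. -/

set_option autoImplicit false
set_option linter.unusedSectionVars false

namespace Pool.Agent.Q246.VR

open Complex Filter Polynomial Topology Matrix
open Pool.Agent.Q246.AT
open Pool.Agent.W353.NF (fixn act act_apply)
open scoped Classical Kronecker

section
variable {K : Type} [Field K] [NumberField K] {V : Type} (q : V → ℕ) {n : ℕ}
  (Φ : V → Matrix (Fin n) (Fin n) ℚ) (φ : V → Gal(AlgebraicClosure K/K))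

/-- the eigenvalues of almost all `Φ_v` have absolute value `q_v^w` -/
def Pure (w : ℝ) : Prop :=
  ∀ᶠ v in cofinite, ∀ z ∈ spectrum ℂ ((Φ v).map (algebraMap ℚ ℂ)), ‖z‖ = (q v : ℝ) ^ w

/-- the Euler product -/
noncomputable def LX (B : V → ℚ[X]) (s : ℂ) : ℂ :=
  ∏' v : V, (aeval (((q v : ℕ) : ℂ) ^ (-s)) (B v))⁻¹

/-- Euler factors over `F` -/
structure EF (m : ℤ) (F : IntermediateField K (AlgebraicClosure K)) [FiniteDimensional K F]
    (B : V → ℚ[X]) : Prop where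
  good : ∀ᶠ v in cofinite, B v = eul F (Φ v) (φ v)
  zero : ∀ v, (B v).eval 0 ≠ 0
  at_m : ∀ v, (B v).eval ((q v : ℚ) ^ (-m)) ≠ 0

variable {q Φ φ} {w : ℝ}

/-- the data of the machine -/
theorem exists_al (hq : Norms q) (hw : Pure q Φ w) : ∃ (α : V → Fin n → ℂ) (S : Set V),
    Bad q α w S ∧ (∀ v ∉ S, ∀ i, ‖α v i‖ = (q v : ℝ) ^ w) ∧
    ∀ v (z : ℂ), (1 - z • (Φ v).map (algebraMap ℚ ℂ)).det = ∏ i, (1 - α v i * z) := by
  choose α h1 h2 using fun v => exists_roots' ((Φ v).map (algebraMap ℚ ℂ))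
  refine ⟨α, {v | ¬ ∀ z ∈ spectrum ℂ ((Φ v).map (algebraMap ℚ ℂ)), ‖z‖ = (q v : ℝ) ^ w},
    ⟨Filter.eventually_cofinite.1 hw, fun v hv i => ?_⟩, fun v hv i => ?_, h2⟩
  · rw [Set.mem_ofPred_eq, not_not] at hv
    exact (hv _ (h1 v i)).le
  · rw [Set.mem_ofPred_eq, not_not] at hv
    exact hv _ (h1 v i)

theorem cpow_int (hq : Norms q) (v : V) (m : ℤ) :
    ((q v : ℕ) : ℂ) ^ (-(m : ℂ)) = (((q v : ℚ) ^ (-m) : ℚ) : ℂ) := by
  push_cast
  rw [← Complex.cpow_intCast]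
  push_cast
  rfl

/-- one field -/
theorem field_u (hq : Norms q) {α : V → Fin n → ℂ} {S : Set V} (hS : Bad q α w S)
    (hS' : ∀ v ∉ S, ∀ i, ‖α v i‖ = (q v : ℝ) ^ w)
    (hα : ∀ v (z : ℂ), (1 - z • (Φ v).map (algebraMap ℚ ℂ)).det = ∏ i, (1 - α v i * z))
    {m : ℤ} (hm : (m : ℝ) ≠ w) {F : IntermediateField K (AlgebraicClosure K)}
    [FiniteDimensional K F] {B : V → ℚ[X]} (hB : EF q Φ φ m F B) :
    ∃ u : ℂ → ℂ, (∀ s, MeromorphicAt u s) ∧
      (∀ᶠ s in R, u s ≠ 0 ∧ LX q B s = u s * LL q α φ S (chF F) s) ∧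
      ∃ x : ℚ, x ≠ 0 ∧ meromorphicTrailingCoeffAt u (m : ℂ) = x := by
  choose l hl1 hl2 hl3 using fun v => pmC_eig F (φ v)
  let B' : V → ℂ[X] := fun v => (B v).map (algebraMap ℚ ℂ)
  have hB' : ∀ v (z : ℂ), (B' v).eval z = aeval z (B v) := fun v z =>
    Polynomial.eval_map_algebraMap (B v) z
  have hE : ∀ v, Eig (chF F) (φ v) (l v) := fun v => ⟨hl1 v, hl3 v⟩
  have hprod : ∀ v (z : ℂ), aeval z (eul F (Φ v) (φ v)) = ∏ i, ∏ j, (1 - α v i * z * l v j) :=
    fun v z => eul_prod F (Φ v) (φ v) (hα v) (hl2 v) z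
  obtain ⟨T, hT⟩ := LF_expl (φ := φ) hq hS hE (chF_le F) (B := B')
    (by
      filter_upwards [hB.good] with v hv z
      rw [hB', hv, hprod])
    (fun v => by
      rw [hB']
      have h1 : aeval (0 : ℂ) (B v) = (((B v).eval 0 : ℚ) : ℂ) := by
        have := Polynomial.aeval_algebraMap_apply ℂ (0 : ℚ) (B v)
        simpa using this
      rw [h1]
      exact_mod_cast hB.zero v)
  have hbd : ∀ v, Differentiable ℂ fun s : ℂ => (B' v).eval (((q v : ℕ) : ℂ) ^ (-s)) :=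
    fun v => (B' v).differentiable.comp (q_diff hq v)
  have hrat : ∀ (P : ℚ[X]) (v : V), aeval (((q v : ℕ) : ℂ) ^ (-(m : ℂ))) P =
      ((P.eval ((q v : ℚ) ^ (-m)) : ℚ) : ℂ) := by
    intro P v
    rw [cpow_int hq]
    have := Polynomial.aeval_algebraMap_apply ℂ ((q v : ℚ) ^ (-m)) P
    rw [Polynomial.coe_aeval_eq_eval] at this
    exact this
  -- the values at `m`
  have hg : ∀ v, ∃ x : ℚ, x ≠ 0 ∧ gg q α S l v (m : ℂ) = x := by
    intro v
    by_cases hv : v ∈ S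
    · exact ⟨1, one_ne_zero, by unfold gg; rw [if_pos hv, Rat.cast_one]⟩
    · have h1 : gg q α S l v (m : ℂ) =
          (((eul F (Φ v) (φ v)).eval ((q v : ℚ) ^ (-m)) : ℚ) : ℂ) := by
        unfold gg
        rw [if_neg hv, ← hrat, hprod]
      refine ⟨_, fun h0 => ?_, h1⟩
      rw [h0, Rat.cast_zero] at h1
      unfold gg at h1
      rw [if_neg hv, Finset.prod_eq_zero_iff] at h1
      obtain ⟨i, -, h1⟩ := h1
      rw [Finset.prod_eq_zero_iff] at h1
      obtain ⟨j, -, h1⟩ := h1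
      have h2 : ‖α v i * ((q v : ℕ) : ℂ) ^ (-(m : ℂ)) * l v j‖ = 1 := by
        rw [sub_eq_zero] at h1
        rw [← h1, norm_one]
      rw [norm_mul, norm_mul, hl1 v j, mul_one, hS' v hv i, norm_q hq, Complex.intCast_re] at h2
      have h3 : (1 : ℝ) < q v := by
        have := hq.two v
        exact_mod_cast (by omega : 1 < q v)
      rw [← Real.rpow_add (by linarith)] at h2
      have h4 : w + -(m : ℝ) = 0 := by
        rcases lt_trichotomy (w + -(m : ℝ)) 0 with h5 | h5 | h5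
        · exact absurd h2 (Real.rpow_lt_one_of_one_lt_of_neg h3 h5).ne
        · exact h5
        · exact absurd h2 (Real.one_lt_rpow h3 h5).ne'
      exact hm (by linarith)
  choose x hx hx' using hg
  let u : ℂ → ℂ := fun s =>
    ∏ v ∈ T, (((B' v).eval (((q v : ℕ) : ℂ) ^ (-s)))⁻¹ * gg q α S l v s)
  refine ⟨u, fun s => ?_, ?_, ?_⟩
  · refine MeromorphicAt.fun_prod fun v _ => ?_
    exact (((hbd v).analyticAt s).meromorphicAt.inv).mul
      ((gg_diff hq l v).analyticAt s).meromorphicAt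
  · filter_upwards [hT] with s hs
    refine ⟨hs.1, ?_⟩
    have h1 : LX q B s = LF q B' s := by
      unfold LX LF
      exact tprod_congr fun v => by rw [hB']
    rw [h1]
    exact hs.2
  · refine ⟨∏ v ∈ T, (((B v).eval ((q v : ℚ) ^ (-m)))⁻¹ * x v), ?_, ?_⟩
    · exact Finset.prod_ne_zero_iff.2 fun v _ => mul_ne_zero (inv_ne_zero (hB.at_m v)) (hx v)
    · have hval : ∀ v, (B' v).eval (((q v : ℕ) : ℂ) ^ (-(m : ℂ))) =
          (((B v).eval ((q v : ℚ) ^ (-m)) : ℚ) : ℂ) := fun v => by rw [hB', hrat]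
      have hne : ∀ v, (B' v).eval (((q v : ℕ) : ℂ) ^ (-(m : ℂ))) ≠ 0 := fun v => by
        rw [hval]
        exact_mod_cast hB.at_m v
      have han : AnalyticAt ℂ u (m : ℂ) := by
        refine Finset.analyticAt_fun_prod _ fun v _ => ?_
        exact (((hbd v).analyticAt _).fun_inv (hne v)).fun_mul ((gg_diff hq l v).analyticAt _)
      have hum : u (m : ℂ) = ((∏ v ∈ T, (((B v).eval ((q v : ℚ) ^ (-m)))⁻¹ * x v) : ℚ) : ℂ) := by
        simp only [u, hval, hx']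
        push_cast
        rfl
      rw [han.meromorphicTrailingCoeffAt_of_ne_zero, hum]
      rw [hum]
      have : (∏ v ∈ T, (((B v).eval ((q v : ℚ) ^ (-m)))⁻¹ * x v) : ℚ) ≠ 0 :=
        Finset.prod_ne_zero_iff.2 fun v _ => mul_ne_zero (inv_ne_zero (hB.at_m v)) (hx v)
      exact_mod_cast this

theorem coeff_prod {ι : Type} [Fintype ι] {Λ : ι → ℂ → ℂ} {s₀ : ℂ}
    (h : ∀ i, MeromorphicAt (Λ i) s₀) (c : ι → ℤ) :
    meromorphicTrailingCoeffAt (∏ i, Λ i ^ c i) s₀ =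
      ∏ i, (meromorphicTrailingCoeffAt (Λ i) s₀) ^ c i := by
  rw [meromorphicTrailingCoeffAt_prod fun i _ => (h i).zpow (c i)]
  exact Finset.prod_congr rfl fun i _ => (h i).meromorphicTrailingCoeffAt_zpow

/-- **The relation between the leading coefficients.** -/
theorem coeff_relation (hq : Norms q) (hw : Pure q Φ w) {m : ℤ} (hm : (m : ℝ) ≠ w)
    {Ω : Set ℂ} (hΩ : IsPreconnected Ω) {c₀ : ℝ} (hsub : {s : ℂ | c₀ < s.re} ⊆ Ω)
    (hmΩ : (m : ℂ) ∈ Ω) {ι : Type} [Fintype ι] (F : ι → IntermediateField K (AlgebraicClosure K))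
    [∀ i, FiniteDimensional K (F i)] (c : ι → ℤ)
    (h : ∀ g, ∑ i, c i * (fixn K (F i) g : ℤ) = 0) {B : ι → V → ℚ[X]}
    (hB : ∀ i, EF q Φ φ m (F i) (B i)) {Λ : ι → ℂ → ℂ} (hΛ : ∀ i, MeromorphicOn (Λ i) Ω)
    (hΛ' : ∀ i, ∀ᶠ s in R, Λ i s = LX q (B i) s) :
    ∃ x : ℚ, x ≠ 0 ∧ ∏ i, (meromorphicTrailingCoeffAt (Λ i) (m : ℂ)) ^ c i = x := by
  obtain ⟨α, S, hS, hS', hα⟩ := exists_al hq hw
  choose u hu hu' x hx hx' using fun i => field_u hq hS hS' hα hm (hB i)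
  have h1 : ∀ᶠ s in R, (∏ i, Λ i ^ c i) s = (∏ i, u i ^ c i) s := by
    have h2 : ∀ᶠ s in R, ∀ i, Λ i s = LX q (B i) s := Filter.eventually_all.2 hΛ'
    have h3 : ∀ᶠ s in R, ∀ i, u i s ≠ 0 ∧ LX q (B i) s = u i s * LL q α φ S (chF (F i)) s :=
      Filter.eventually_all.2 hu'
    filter_upwards [h2, h3, ev_re (w + 1)] with s e2 e3 e4
    have h4 := LL_rel (φ := φ) hq hS (fun i => chF (F i)) c (fun i g => chF_le (F i) g)
      (fun g => by
        have := congrArg (fun z : ℤ => (z : ℂ)) (h g)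
        push_cast at this
        exact this) e4
    rw [Finset.prod_apply, Finset.prod_apply]
    simp only [Pi.pow_apply]
    have h5 : ∀ i, Λ i s ^ c i = u i s ^ c i * (LL q α φ S (chF (F i)) s : ℂ) ^ c i := by
      intro i
      rw [e2, (e3 i).2, mul_zpow]
    rw [Finset.prod_congr rfl fun i _ => h5 i, Finset.prod_mul_distrib, h4, mul_one]
  have hm1 : MeromorphicOn (∏ i, Λ i ^ c i) Ω := fun s hs =>
    MeromorphicAt.prod fun i _ => (hΛ i s hs).zpow (c i)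
  have hm2 : MeromorphicOn (∏ i, u i ^ c i) Ω := fun s _ =>
    MeromorphicAt.prod fun i _ => (hu i s).zpow (c i)
  have h6 := meromorphicTrailingCoeffAt_congr_nhdsNE (near_of_R hΩ hmΩ hsub hm1 hm2 h1)
  rw [coeff_prod (fun i => hΛ i _ hmΩ), coeff_prod (fun i => hu i _)] at h6
  refine ⟨∏ i, x i ^ c i, Finset.prod_ne_zero_iff.2 fun i _ => zpow_ne_zero _ (hx i), ?_⟩
  rw [h6]
  push_cast
  exact Finset.prod_congr rfl fun i _ => by rw [hx']

end

end Pool.Agent.Q246.VR
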