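import Pool.Agent.Q246.VR.Emb
import Pool.Agent.Q246.AT.Main
import Pool.Agent.Q246.AT.Kron

/-! Leading coefficients of the `L`-functions over all number fields. -/

set_option autoImplicit false
set_option linter.unusedSectionVars false

namespace Pool.Agent.Q246.VR

open Complex Filter Polynomial Topology Matrix
open Pool.Agent.Q246.AT
open Pool.Agent.Q246.DL (lt lt_add lt_norm lt_summable)
open scoped Classical Kronecker

/-! ### The identity theorem -/

theorem near_of_R {Ω : Set ℂ} (hc : IsPreconnected Ω) {s₀ : ℂ} (hs : s₀ ∈ Ω)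
    {c₀ : ℝ} (hsub : {s : ℂ | c₀ < s.re} ⊆ Ω) {F G : ℂ → ℂ} (hF : MeromorphicOn F Ω)
    (hG : MeromorphicOn G Ω) (h : ∀ᶠ s in R, F s = G s) : F =ᶠ[𝓝[≠] s₀] G := by
  obtain ⟨c, hc'⟩ := ev_iff.1 h
  have hD : MeromorphicOn (F - G) Ω := fun x hx => (hF x hx).sub (hG x hx)
  set t : ℂ := ((max c c₀ + 1 : ℝ) : ℂ) with ht
  have htre : t.re = max c c₀ + 1 := Complex.ofReal_re _
  have htΩ : t ∈ Ω := hsub (by
    change c₀ < t.re
    rw [htre]
    exact (le_max_right c c₀).trans_lt (lt_add_one _))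
  have htop : meromorphicOrderAt (F - G) t = ⊤ := by
    rw [meromorphicOrderAt_eq_top_iff]
    have h1 : ∀ᶠ z in 𝓝 t, c < z.re := by
      have : IsOpen {z : ℂ | c < z.re} := isOpen_lt continuous_const Complex.continuous_re
      refine this.mem_nhds ?_
      change c < t.re
      rw [htre]
      exact (le_max_left c c₀).trans_lt (lt_add_one _)
    filter_upwards [h1.filter_mono nhdsWithin_le_nhds] with z hz
    rw [Pi.sub_apply, hc' z hz, sub_self]
  have htop' : meromorphicOrderAt (F - G) s₀ = ⊤ := by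
    by_contra hne
    exact MeromorphicOn.meromorphicOrderAt_ne_top_of_isPreconnected (x := s₀) hD hc hs htΩ hne htop
  rw [meromorphicOrderAt_eq_top_iff] at htop'
  filter_upwards [htop'] with z hz
  rw [Pi.sub_apply] at hz
  exact sub_eq_zero.1 hz

/-! ### The Euler products -/

section
variable {K : Type} [Field K] [NumberField K] {V : Type} {q : V → ℕ} {n : ℕ}
  {α : V → Fin n → ℂ} {φ : V → Gal(AlgebraicClosure K/K)} {w : ℝ} {S : Set V}

/-- the continuation of the Euler factor at a good place -/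
noncomputable def gg (q : V → ℕ) (α : V → Fin n → ℂ) (S : Set V) {d : ℕ} (l : V → Fin d → ℂ)
    (v : V) (s : ℂ) : ℂ :=
  if v ∈ S then 1 else ∏ i, ∏ j, (1 - α v i * ((q v : ℕ) : ℂ) ^ (-s) * l v j)

theorem gg_diff (hq : Norms q) {d : ℕ} (l : V → Fin d → ℂ) (v : V) :
    Differentiable ℂ (gg q α S l v) := by
  unfold gg
  by_cases hv : v ∈ S
  · simp only [if_pos hv]
    exact differentiable_const _
  · simp only [if_neg hv]
    refine Differentiable.fun_finsetProd fun i _ => Differentiable.fun_finsetProd fun j _ => ?_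
    exact (differentiable_const _).sub (((differentiable_const _).mul (q_diff hq v)).mul
      (differentiable_const _))

/-- **The `L`-function**, explicitly up to finitely many Euler factors. -/
theorem LF_expl (hq : Norms q) (hS : Bad q α w S) {χ : Gal(AlgebraicClosure K/K) → ℂ} {d : ℕ}
    {l : V → Fin d → ℂ} (hl : ∀ v, Eig χ (φ v) (l v)) {C : ℝ} (hC : ∀ g, ‖χ g‖ ≤ C)
    {B : V → ℂ[X]}
    (hgood : ∀ᶠ v in cofinite, ∀ z : ℂ, (B v).eval z = ∏ i, ∏ j, (1 - α v i * z * l v j))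
    (hne : ∀ v, (B v).eval 0 ≠ 0) :
    ∃ T : Finset V, ∀ᶠ s in R,
      (∏ v ∈ T, (((B v).eval (((q v : ℕ) : ℂ) ^ (-s)))⁻¹ * gg q α S l v s)) ≠ 0 ∧
      LF q B s = (∏ v ∈ T, (((B v).eval (((q v : ℕ) : ℂ) ^ (-s)))⁻¹ * gg q α S l v s)) *
        LL q α φ S χ s := by
  have hfin : ∀ᶠ v in cofinite, v ∉ S ∧
      ∀ z : ℂ, (B v).eval z = ∏ i, ∏ j, (1 - α v i * z * l v j) :=
    hS.fin.eventually_cofinite_notMem.and hgood
  have hT := Filter.eventually_cofinite.1 hfin
  set T : Finset V := hT.toFinset with hTdef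
  have hmem : ∀ v ∉ T, v ∉ S ∧ ∀ z : ℂ, (B v).eval z = ∏ i, ∏ j, (1 - α v i * z * l v j) := by
    intro v hv
    by_contra hc
    exact hv (hT.mem_toFinset.2 hc)
  let b : V → ℂ → ℂ := fun v s => (B v).eval (((q v : ℕ) : ℂ) ^ (-s))
  let g : V → ℂ → ℂ := gg q α S l
  have hgexp : ∀ v, ∀ s : ℂ, w + 1 < s.re → exp (hh q α φ S χ s v) = (g v s)⁻¹ := by
    intro v s hs
    by_cases hv : v ∈ S
    · simp only [g, gg, if_pos hv, inv_one]
      unfold hh
      rw [if_pos hv, exp_zero]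
    · simp only [g, gg, if_neg hv]
      exact exp_hh hq hS hv (hl v) hs
  refine ⟨T, ?_⟩
  have hbne : ∀ᶠ s in R, ∀ v ∈ T, b v s ≠ 0 := by
    rw [Filter.eventually_all_finset]
    intro v _
    have h1 : Tendsto (b v) R (𝓝 ((B v).eval 0)) :=
      ((B v).continuous.tendsto 0).comp (q_tendsto hq v)
    exact h1.eventually_ne (hne v)
  filter_upwards [hbne, ev_re (w + 1)] with s hbs hs
  have hsum := hh_summable (φ := φ) hq hS hC hs
  have hg0 : ∀ v, g v s ≠ 0 := by
    intro v h0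
    have h1 := hgexp v s hs
    rw [h0, _root_.inv_zero] at h1
    exact exp_ne_zero _ h1
  refine ⟨Finset.prod_ne_zero_iff.2 fun v hv => mul_ne_zero (inv_ne_zero (hbs v hv)) (hg0 v), ?_⟩
  have hgood : ∀ v ∉ T, (b v s)⁻¹ = exp (hh q α φ S χ s v) := by
    intro v hv
    obtain ⟨hvS, hP⟩ := hmem v hv
    rw [exp_hh hq hS hvS (hl v) hs]
    simp only [b, hP]
  let u : V → ℂ := fun v => if v ∈ T then log ((b v s)⁻¹) else hh q α φ S χ s v
  have hu : ∀ v, exp (u v) = (b v s)⁻¹ := by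
    intro v
    by_cases hv : v ∈ T
    · simp only [u, if_pos hv]
      exact exp_log (inv_ne_zero (hbs v hv))
    · simp only [u, if_neg hv]
      exact (hgood v hv).symm
  have hdz : ∀ v ∉ T, u v - hh q α φ S χ s v = 0 := by
    intro v hv
    simp only [u, if_neg hv, sub_self]
  have hd' : HasSum (fun v => u v - hh q α φ S χ s v)
      (∑ v ∈ T, (u v - hh q α φ S χ s v)) := hasSum_sum_of_ne_finset_zero hdz
  have hus : HasSum u (∑ v ∈ T, (u v - hh q α φ S χ s v) + ∑' v, hh q α φ S χ s v) := by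
    have h2 := hd'.add hsum.hasSum
    refine h2.congr_fun fun v => ?_
    ring
  have hprod := hus.cexp
  have h3 : LF q B s = exp (∑ v ∈ T, (u v - hh q α φ S χ s v) + ∑' v, hh q α φ S χ s v) := by
    unfold LF
    rw [← hprod.tprod_eq]
    exact tprod_congr fun v => (hu v).symm
  rw [h3, exp_add, exp_sum]
  congr 1
  refine Finset.prod_congr rfl fun v _ => ?_
  rw [exp_sub, hu, hgexp v s hs, div_inv_eq_mul]

/-- relations between characters and Euler products -/
theorem LL_rel (hq : Norms q) (hS : Bad q α w S) {ι : Type} [Fintype ι]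
    (χ : ι → Gal(AlgebraicClosure K/K) → ℂ) (c : ι → ℤ) {C : ι → ℝ}
    (hC : ∀ i g, ‖χ i g‖ ≤ C i) (h : ∀ g, ∑ i, (c i : ℂ) * χ i g = 0) {s : ℂ}
    (hs : w + 1 < s.re) : ∏ i, (LL q α φ S (χ i) s : ℂ) ^ (c i) = 1 := by
  have h1 : ∀ i, (LL q α φ S (χ i) s : ℂ) ^ (c i) =
      exp ((c i : ℂ) * ∑' v, hh q α φ S (χ i) s v) := by
    intro i
    change exp _ ^ (c i) = _
    rw [← exp_int_mul]
  rw [Finset.prod_congr rfl fun i _ => h1 i, ← exp_sum]
  have h2 : ∀ i, Summable (hh q α φ S (χ i) s) := fun i => hh_summable hq hS (hC i) hs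
  have h3 : ∑ i, (c i : ℂ) * ∑' v, hh q α φ S (χ i) s v =
      ∑' v, ∑ i, (c i : ℂ) * hh q α φ S (χ i) s v := by
    rw [Summable.tsum_finsetSum fun i _ => (h2 i).mul_left (c i : ℂ)]
    exact Finset.sum_congr rfl fun i _ => (tsum_mul_left).symm
  have h4 : ∀ v, ∑ i, (c i : ℂ) * hh q α φ S (χ i) s v = 0 := by
    intro v
    unfold hh
    by_cases hv : v ∈ S
    · simp only [if_pos hv, mul_zero, Finset.sum_const_zero]
    · simp only [if_neg hv, Finset.mul_sum]
      rw [Finset.sum_comm]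
      refine Finset.sum_eq_zero fun j _ => ?_
      have hx : ‖α v j * ((q v : ℕ) : ℂ) ^ (-s)‖ < 1 :=
        (xx_half hq hS hv j hs).trans_lt (by norm_num)
      have h5 : ∀ i, (c i : ℂ) * lt (fun k => χ i (φ v ^ k)) (α v j * ((q v : ℕ) : ℂ) ^ (-s)) =
          ∑' k : ℕ, (c i : ℂ) * (χ i (φ v ^ k) * (α v j * ((q v : ℕ) : ℂ) ^ (-s)) ^ k / k) := by
        intro i
        unfold lt
        rw [tsum_mul_left]
      rw [Finset.sum_congr rfl fun i _ => h5 i, ← Summable.tsum_finsetSum fun i _ =>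
        (lt_summable (fun k => hC i (φ v ^ k)) hx).mul_left (c i : ℂ)]
      have h6 : ∀ k : ℕ, ∑ i, (c i : ℂ) *
          (χ i (φ v ^ k) * (α v j * ((q v : ℕ) : ℂ) ^ (-s)) ^ k / k) = 0 := by
        intro k
        have h7 : ∀ i, (c i : ℂ) * (χ i (φ v ^ k) * (α v j * ((q v : ℕ) : ℂ) ^ (-s)) ^ k / k) =
            ((c i : ℂ) * χ i (φ v ^ k)) * ((α v j * ((q v : ℕ) : ℂ) ^ (-s)) ^ k / k) := by
          intro i
          ring
        rw [Finset.sum_congr rfl fun i _ => h7 i, ← Finset.sum_mul, h, zero_mul]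
      simp only [h6, tsum_zero]
  rw [h3, tsum_congr h4, tsum_zero, exp_zero]

end

end Pool.Agent.Q246.VR
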