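import Pool.Agent.Q246.VR.Law

/-! The law of real places for leading coefficients and volumes. -/

set_option autoImplicit false
set_option linter.unusedSectionVars false

namespace Pool.Agent.Q246.VR

open Complex Filter Polynomial Topology Matrix
open Pool.Agent.Q246.AT
open Pool.Agent.W353.NF (fixn act act_apply)
open Pool.Agent.Q246.RP (IsCC AWide awide_relation phi card_fixed_of_isCC)
open scoped Classical

/-- roots of rational numbers -/
def Root (x : ℂ) : Prop := ∃ k : ℕ, 0 < k ∧ ∃ y : ℚ, y ≠ 0 ∧ x ^ k = y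

theorem root_mul {x y : ℂ} (hx : Root x) (hy : Root y) : Root (x * y) := by
  obtain ⟨k, hk, a, ha, h1⟩ := hx
  obtain ⟨l, hl, b, hb, h2⟩ := hy
  refine ⟨k * l, Nat.mul_pos hk hl, a ^ l * b ^ k, mul_ne_zero (pow_ne_zero _ ha)
    (pow_ne_zero _ hb), ?_⟩
  rw [mul_pow, pow_mul, h1, mul_comm k l, pow_mul, h2]
  push_cast
  rfl

theorem root_inv {x : ℂ} (hx : Root x) : Root x⁻¹ := by
  obtain ⟨k, hk, a, ha, h1⟩ := hx
  exact ⟨k, hk, a⁻¹, inv_ne_zero ha, by rw [inv_pow, h1]; push_cast; rfl⟩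

theorem root_rat {y : ℚ} (hy : y ≠ 0) : Root (y : ℂ) := ⟨1, one_pos, y, hy, pow_one _⟩

theorem root_one : Root 1 := by
  have := root_rat (one_ne_zero : (1 : ℚ) ≠ 0)
  simpa using this

theorem root_pow {x : ℂ} (hx : Root x) (k : ℕ) : Root (x ^ k) := by
  induction k with
  | zero => rw [pow_zero]; exact root_one
  | succ k ih => rw [pow_succ]; exact root_mul ih hx

theorem root_zpow {x : ℂ} (hx : Root x) (k : ℤ) : Root (x ^ k) := by
  cases k with
  | ofNat k => rw [Int.ofNat_eq_natCast, zpow_natCast]; exact root_pow hx k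
  | negSucc k => rw [zpow_negSucc]; exact root_inv (root_pow hx _)

theorem root_of_pow {x : ℂ} {k : ℕ} (hk : 0 < k) (h : Root (x ^ k)) : Root x := by
  obtain ⟨l, hl, a, ha, h1⟩ := h
  exact ⟨k * l, Nat.mul_pos hk hl, a, ha, by rw [pow_mul, h1]⟩

theorem root_prod {ι : Type} (s : Finset ι) (f : ι → ℂ) (h : ∀ i ∈ s, Root (f i)) :
    Root (∏ i ∈ s, f i) :=
  Finset.prod_induction f Root (fun _ _ => root_mul) root_one h

theorem root_ne {x : ℂ} (h : Root x) : x ≠ 0 := by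
  rintro rfl
  obtain ⟨k, hk, y, hy, hky⟩ := h
  rw [zero_pow hk.ne'] at hky
  exact hy (by exact_mod_cast hky.symm)

section
variable {K : Type} [Field K] [NumberField K] {V : Type} {q : V → ℕ} {n : ℕ}
  {Φ : V → Matrix (Fin n) (Fin n) ℚ} {φ : V → Gal(AlgebraicClosure K/K)} {w : ℝ} {m : ℤ}
  {Ω : Set ℂ} {W : Type} [AddCommGroup W] [Module ℂ W] [Module ℚ W]
  {ρ : Gal(AlgebraicClosure K/K) →* (W →ₗ[ℂ] W)} {D U : Submodule ℚ W}

/-- `x` is a quotient of a leading coefficient and a volume over `F` -/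
def Quot' (q : V → ℕ) (Φ : V → Matrix (Fin n) (Fin n) ℚ) (φ : V → Gal(AlgebraicClosure K/K))
    (m : ℤ) (Ω : Set ℂ) (ρ : Gal(AlgebraicClosure K/K) →* (W →ₗ[ℂ] W)) (D U : Submodule ℚ W)
    (F : IntermediateField K (AlgebraicClosure K)) [FiniteDimensional K F] (x : ℂ) : Prop :=
  ∃ (B : V → ℚ[X]) (c r : ℂ), EF q Φ φ m F B ∧
    (∃ Λ : ℂ → ℂ, MeromorphicOn Λ Ω ∧ (∀ᶠ s in R, Λ s = LX q B s) ∧
      meromorphicTrailingCoeffAt Λ (m : ℂ) = c) ∧
    IsVol (dinv ρ D F.fixingSubgroup) (dinv ρ U F.fixingSubgroup) r ∧ c / r = x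

/-- the special fields -/
def Spec (q : V → ℕ) (Φ : V → Matrix (Fin n) (Fin n) ℚ) (φ : V → Gal(AlgebraicClosure K/K))
    (m : ℤ) (Ω : Set ℂ) (ρ : Gal(AlgebraicClosure K/K) →* (W →ₗ[ℂ] W)) (D U : Submodule ℚ W)
    (𝓕 : Set (IntermediateField K (AlgebraicClosure K))) : Prop :=
  ∀ (F : IntermediateField K (AlgebraicClosure K)) [FiniteDimensional K F], F ∈ 𝓕 →
    Str (dinv ρ U F.fixingSubgroup) (inv ρ F.fixingSubgroup) ∧
    ∃ x : ℂ, Quot' q Φ φ m Ω ρ D U F x ∧ Root x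

theorem structure_all {𝓕 : Set (IntermediateField K (AlgebraicClosure K))} (hF : AWide 𝓕)
    (hU : Stable ρ U) (h : Spec q Φ φ m Ω ρ D U 𝓕)
    (F : IntermediateField K (AlgebraicClosure K)) [FiniteDimensional K F] :
    Str (dinv ρ U F.fixingSubgroup) (inv ρ F.fixingSubgroup) := by
  obtain ⟨L, hL, hnor, hle⟩ := exists_big hF (fun _ : Unit => F) (fun _ => inferInstance)
  have hfd := hF.1 L hL
  have hLn : L.fixingSubgroup.Normal := normal_fix L
  have hfin := finite_quot L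
  exact str_W (N := L.fixingSubgroup) hU (h L hL).1
    (IntermediateField.fixingSubgroup_antitone (hle ()))

/-- **The law of real places.** -/
theorem relation {𝓕 : Set (IntermediateField K (AlgebraicClosure K))} (hF : AWide 𝓕)
    (hq : Norms q) (hw : Pure q Φ w) (hm : (m : ℝ) ≠ w) (hΩ : IsPreconnected Ω) {c₀ : ℝ}
    (hsub : {s : ℂ | c₀ < s.re} ⊆ Ω) (hmΩ : (m : ℂ) ∈ Ω) (hD : Stable ρ D)
    (hD' : ∀ F : IntermediateField K (AlgebraicClosure K), FiniteDimensional K F →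
      FiniteDimensional ℂ (inv ρ F.fixingSubgroup) ∧
      Str (dinv ρ D F.fixingSubgroup) (inv ρ F.fixingSubgroup))
    (hU : Stable ρ U) (h : Spec q Φ φ m Ω ρ D U 𝓕) {ι : Type}
    [Fintype ι] (F : ι → IntermediateField K (AlgebraicClosure K)) [∀ i, FiniteDimensional K (F i)]
    (x : ι → ℂ) (hx : ∀ i, Quot' q Φ φ m Ω ρ D U (F i) (x i)) (c : ι → ℤ)
    (hc : ∀ σ, IsCC σ → ∑ i, c i * (fixn K (F i) σ : ℤ) = 0) : Root (∏ i, x i ^ c i) := by
  have hnf : ∀ i, NumberField (F i) := fun i => NumberField.of_module_finite K (F i)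
  let X : ι → Pool.Agent.Q5.BR.Ext K := fun i => Pool.Agent.Q5.BR.Ext.mk (F i)
  obtain ⟨κ, hκ, E, a, t, ht, hE, hrel⟩ := awide_relation hF X c hc
  have hEfd : ∀ j, FiniteDimensional K (E j) := fun j => hF.1 _ (hE j)
  choose B l r hB hl hr hlr using hx
  have hspec : ∀ j, ∃ x : ℂ, Quot' q Φ φ m Ω ρ D U (E j) x ∧ Root x := fun j => (h (E j) (hE j)).2
  choose x' hx' hx'' using hspec
  choose B' l' r' hB' hl' hr' hlr' using hx'
  choose Λ hΛ hΛ' hΛ'' using hl
  choose Λ' hΛ1 hΛ2 hΛ3 using hl'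
  let Y : ι ⊕ κ → IntermediateField K (AlgebraicClosure K) := Sum.elim F E
  have hY : ∀ i, FiniteDimensional K (Y i) := by
    rintro (i | j)
    · exact (inferInstance : FiniteDimensional K (F i))
    · exact hEfd j
  let e : ι ⊕ κ → ℤ := Sum.elim (fun i => (t : ℤ) * c i) (fun j => - a j)
  have hYrel : ∀ g, ∑ i, e i * (fixn K (Y i) g : ℤ) = 0 := by
    intro g
    rw [Fintype.sum_sum_type]
    have h1 := hrel g
    have h2 : ∑ i, e (Sum.inl i) * (fixn K (Y (Sum.inl i)) g : ℤ) = (t : ℤ) * phi X c g := by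
      unfold phi
      rw [Finset.mul_sum]
      refine Finset.sum_congr rfl fun i _ => ?_
      change (t : ℤ) * c i * _ = (t : ℤ) * (c i * _)
      rw [mul_assoc]
      rfl
    have h3 : ∑ j, e (Sum.inr j) * (fixn K (Y (Sum.inr j)) g : ℤ) =
        - ∑ j, a j * (fixn K (E j) g : ℤ) := by
      rw [← Finset.sum_neg_distrib]
      refine Finset.sum_congr rfl fun j _ => ?_
      change - a j * _ = - (a j * _)
      rw [neg_mul]
      rfl
    rw [h2, h3, h1, add_neg_cancel]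
  obtain ⟨L, hL, hnor, hle⟩ := exists_big hF Y hY
  have hfd := hF.1 L hL
  have hLn : L.fixingSubgroup.Normal := normal_fix L
  have hfin := finite_quot L
  have hfinY : ∀ i, Finite (Gal(AlgebraicClosure K/K) ⧸ (Y i).fixingSubgroup) := fun i =>
    finite_quot (Y i)
  have hfdL : FiniteDimensional ℂ (inv ρ L.fixingSubgroup) := (hD' L hfd).1
  let vol : ι ⊕ κ → ℂ := Sum.elim r r'
  have hvol : ∀ i, IsVol (dinv ρ D (Y i).fixingSubgroup) (dinv ρ U (Y i).fixingSubgroup)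
      (vol i) := by
    rintro (i | j)
    · exact hr i
    · exact hr' j
  obtain ⟨y, hy, hyv⟩ := vol_relation_W (N := L.fixingSubgroup) hD hU
    (hD' L hfd).2 (h L hL).1 (fun i => (Y i).fixingSubgroup)
    (fun i => IntermediateField.fixingSubgroup_antitone (hle i)) e
    (fun g => by
      rw [← hYrel g]
      refine Finset.sum_congr rfl fun i _ => ?_
      rw [cos_eq]) vol hvol
  let BB : ι ⊕ κ → V → ℚ[X] := Sum.elim B B'
  have hBB : ∀ i, EF q Φ φ m (Y i) (BB i) := by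
    rintro (i | j)
    · exact hB i
    · exact hB' j
  let LL : ι ⊕ κ → ℂ → ℂ := Sum.elim Λ Λ'
  have hLL : ∀ i, MeromorphicOn (LL i) Ω := by
    rintro (i | j)
    · exact hΛ i
    · exact hΛ1 j
  have hLL' : ∀ i, ∀ᶠ s in R, LL i s = LX q (BB i) s := by
    rintro (i | j)
    · exact hΛ' i
    · exact hΛ2 j
  obtain ⟨z, hz, hzv⟩ := coeff_relation hq hw hm hΩ hsub hmΩ Y e hYrel hBB hLL hLL'
  rw [Fintype.prod_sum_type] at hyv hzv
  have hne' : ∀ j, l' j ≠ 0 ∧ r' j ≠ 0 := by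
    intro j
    have h1 := root_ne (hx'' j)
    rw [← hlr'] at h1
    exact div_ne_zero_iff.1 h1
  have h1 : ∏ i, l i ^ ((t : ℤ) * c i) = (z : ℂ) * ∏ j, l' j ^ a j := by
    have h2 : (∏ i, l i ^ ((t : ℤ) * c i)) * ∏ j, l' j ^ (-a j) = z := by
      rw [← hzv]
      congr 1
      · exact Finset.prod_congr rfl fun i _ => by rw [← hΛ'' i]; rfl
      · exact Finset.prod_congr rfl fun j _ => by rw [← hΛ3 j]; rfl
    rw [← h2, mul_assoc, ← Finset.prod_mul_distrib]
    have h3 : ∀ j, l' j ^ (-a j) * l' j ^ a j = 1 := fun j => by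
      rw [← zpow_add₀ (hne' j).1, neg_add_cancel, zpow_zero]
    rw [Finset.prod_congr rfl fun j _ => h3 j, Finset.prod_const_one, mul_one]
  have h2 : ∏ i, r i ^ ((t : ℤ) * c i) = (y : ℂ) * ∏ j, r' j ^ a j := by
    have h2 : (∏ i, r i ^ ((t : ℤ) * c i)) * ∏ j, r' j ^ (-a j) = y := hyv
    rw [← h2, mul_assoc, ← Finset.prod_mul_distrib]
    have h3 : ∀ j, r' j ^ (-a j) * r' j ^ a j = 1 := fun j => by
      rw [← zpow_add₀ (hne' j).2, neg_add_cancel, zpow_zero]
    rw [Finset.prod_congr rfl fun j _ => h3 j, Finset.prod_const_one, mul_one]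
  refine root_of_pow ht ?_
  have h3 : (∏ i, x i ^ c i) ^ t = (z : ℂ) * (y : ℂ)⁻¹ * ∏ j, x' j ^ a j := by
    rw [← Finset.prod_pow]
    have h4 : ∀ i, (x i ^ c i) ^ t = l i ^ ((t : ℤ) * c i) / r i ^ ((t : ℤ) * c i) := by
      intro i
      rw [← hlr i, ← div_zpow, ← zpow_natCast, ← _root_.zpow_mul, mul_comm]
    have h5 : ∀ j, x' j ^ a j = l' j ^ a j / r' j ^ a j := by
      intro j
      rw [← hlr' j, div_zpow]
    rw [Finset.prod_congr rfl fun i _ => h4 i, Finset.prod_congr rfl fun j _ => h5 j,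
      Finset.prod_div_distrib, Finset.prod_div_distrib, h1, h2]
    rw [mul_div_mul_comm, div_eq_mul_inv (z : ℂ)]
  rw [h3]
  refine root_mul (root_mul (root_rat hz) (root_inv (root_rat hy))) ?_
  exact root_prod _ _ fun j _ => root_zpow (hx'' j) _

/-- one real place below -/
theorem fixn_cc [Subsingleton (K →+* ℝ)] (F : IntermediateField K (AlgebraicClosure K))
    [FiniteDimensional K F] {σ : Gal(AlgebraicClosure K/K)} (hσ : IsCC σ) :
    fixn K F σ = Nat.card (F →+* ℝ) := by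
  have hnf : NumberField F := NumberField.of_module_finite K F
  obtain ⟨r, hr⟩ := card_fixed_of_isCC hσ
  have h1 : fixn K F σ = Nat.card {j : F →+* ℝ // j.comp (algebraMap K F) = r} := hr F
  rw [h1]
  exact Nat.card_congr (Equiv.subtypeUnivEquiv fun j => Subsingleton.elim _ _)

theorem real_bot [Subsingleton (K →+* ℝ)] [Nonempty (K →+* ℝ)] :
    Nat.card ((⊥ : IntermediateField K (AlgebraicClosure K)) →+* ℝ) = 1 := by
  rw [Nat.card_eq_one_iff_unique]
  have e := (IntermediateField.botEquiv K (AlgebraicClosure K)).toRingEquiv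
  refine ⟨⟨fun a b => ?_⟩, ⟨(Classical.arbitrary (K →+* ℝ)).comp e.toRingHom⟩⟩
  have h1 : a.comp e.symm.toRingHom = b.comp e.symm.toRingHom := Subsingleton.elim _ _
  ext y
  have h2 : a (e.symm (e y)) = b (e.symm (e y)) := RingHom.congr_fun h1 (e y)
  rw [e.symm_apply_apply] at h2
  exact h2

/-- two fields -/
theorem two_fields [Subsingleton (K →+* ℝ)] {𝓕 : Set (IntermediateField K (AlgebraicClosure K))}
    (hF : AWide 𝓕)
    (hq : Norms q) (hw : Pure q Φ w) (hm : (m : ℝ) ≠ w) (hΩ : IsPreconnected Ω) {c₀ : ℝ}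
    (hsub : {s : ℂ | c₀ < s.re} ⊆ Ω) (hmΩ : (m : ℂ) ∈ Ω) (hD : Stable ρ D)
    (hD' : ∀ F : IntermediateField K (AlgebraicClosure K), FiniteDimensional K F →
      FiniteDimensional ℂ (inv ρ F.fixingSubgroup) ∧
      Str (dinv ρ D F.fixingSubgroup) (inv ρ F.fixingSubgroup))
    (hU : Stable ρ U) (h : Spec q Φ φ m Ω ρ D U 𝓕)
    (F F₀ : IntermediateField K (AlgebraicClosure K)) [FiniteDimensional K F]
    [FiniteDimensional K F₀] {x x₀ : ℂ} (hx : Quot' q Φ φ m Ω ρ D U F x)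
    (h₀ : Quot' q Φ φ m Ω ρ D U F₀ x₀) :
    Root (x ^ Nat.card (F₀ →+* ℝ) / x₀ ^ Nat.card (F →+* ℝ)) := by
  have hfd2 : ∀ i : Fin 2, FiniteDimensional K (![F, F₀] i) := by
    intro i
    fin_cases i
    · exact (inferInstance : FiniteDimensional K F)
    · exact (inferInstance : FiniteDimensional K F₀)
  have h1 := relation (ι := Fin 2) hF hq hw hm hΩ hsub hmΩ hD hD' hU h ![F, F₀]
    (hx := by
      intro i
      fin_cases i
      · exact hx
      · exact h₀) (x := ![x, x₀])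
    ![(Nat.card (F₀ →+* ℝ) : ℤ), -(Nat.card (F →+* ℝ) : ℤ)] (by
      intro σ hσ
      rw [Fin.sum_univ_two]
      change (Nat.card (F₀ →+* ℝ) : ℤ) * (fixn K F σ : ℤ) +
        -(Nat.card (F →+* ℝ) : ℤ) * (fixn K F₀ σ : ℤ) = 0
      rw [fixn_cc F hσ, fixn_cc F₀ hσ]
      ring)
  rw [Fin.prod_univ_two] at h1
  change Root (x ^ (Nat.card (F₀ →+* ℝ) : ℤ) * x₀ ^ (-(Nat.card (F →+* ℝ) : ℤ))) at h1
  rw [zpow_natCast, _root_.zpow_neg, zpow_natCast, ← div_eq_mul_inv] at h1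
  exact h1

end

end Pool.Agent.Q246.VR
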