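import Pool.Agent.Q246.VR.Lead

/-! Euler factors over the extensions. -/

set_option autoImplicit false
set_option linter.unusedSectionVars false

namespace Pool.Agent.Q246.VR

open Complex Filter Polynomial Topology Matrix
open Pool.Agent.Q246.AT
open Pool.Agent.W353.NF (fixn act act_apply)
open scoped Classical Kronecker

/-! ### Matrices -/

section
variable {ι : Type} [Fintype ι]

theorem det_kron' {m : ℕ} (M : Matrix (Fin m) (Fin m) ℂ) (T : Matrix ι ι ℂ)
    (α : Fin m → ℂ) (hα : ∀ z : ℂ, (1 - z • M).det = ∏ i, (1 - α i * z)) (z : ℂ) :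
    (1 - z • (M ⊗ₖ T)).det = ∏ i, (1 - (z * α i) • T).det := by
  let e := Fintype.equivFin ι
  have h1 := det_kron M (Matrix.reindex e e T) α hα z
  have h2 : (1 - z • (M ⊗ₖ Matrix.reindex e e T)) =
      Matrix.reindex ((Equiv.refl (Fin m)).prodCongr e) ((Equiv.refl (Fin m)).prodCongr e)
        (1 - z • (M ⊗ₖ T)) := by
    ext ⟨i, k⟩ ⟨j, l⟩
    simp only [Matrix.sub_apply, Matrix.smul_apply, Matrix.reindex_apply, Matrix.submatrix_apply,
      Matrix.kroneckerMap_apply, Matrix.one_apply, Equiv.prodCongr_symm, Equiv.prodCongr_apply,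
      Prod.map_apply, Equiv.refl_symm, Equiv.refl_apply, Prod.mk.injEq, EmbeddingLike.apply_eq_iff_eq]
  rw [h2, Matrix.det_reindex_self] at h1
  rw [h1]
  refine Finset.prod_congr rfl fun i _ => ?_
  have h3 : (1 - (z * α i) • Matrix.reindex e e T) = Matrix.reindex e e (1 - (z * α i) • T) := by
    ext k l
    simp only [Matrix.sub_apply, Matrix.smul_apply, Matrix.reindex_apply, Matrix.submatrix_apply,
      Matrix.one_apply, EmbeddingLike.apply_eq_iff_eq]
  rw [h3, Matrix.det_reindex_self]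

theorem eig_mat' (T : Matrix ι ι ℂ) {k : ℕ} (hk : 0 < k) (hT : T ^ k = 1) :
    ∃ l : Fin (Fintype.card ι) → ℂ, (∀ j, ‖l j‖ = 1) ∧
      (∀ c : ℂ, (1 - c • T).det = ∏ j, (1 - c * l j)) ∧
      ∀ e : ℕ, (T ^ e).trace = ∑ j, l j ^ e := by
  let e := Fintype.equivFin ι
  have hpow : ∀ a : ℕ, (Matrix.reindex e e T) ^ a = Matrix.reindex e e (T ^ a) := fun a =>
    (map_pow (Matrix.reindexAlgEquiv ℂ ℂ e) T a).symm
  have h0 : (Matrix.reindex e e T) ^ k = 1 := by
    rw [hpow, hT]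
    simp
  obtain ⟨l, h1, h2, h3⟩ := eig_mat _ hk h0
  refine ⟨l, h1, fun c => ?_, fun a => ?_⟩
  · rw [← h2]
    have h4 : (1 - c • Matrix.reindex e e T) = Matrix.reindex e e (1 - c • T) := by
      ext k l
      simp only [Matrix.sub_apply, Matrix.smul_apply, Matrix.reindex_apply, Matrix.submatrix_apply,
        Matrix.one_apply, EmbeddingLike.apply_eq_iff_eq]
    rw [h4, Matrix.det_reindex_self]
  · rw [← h3, hpow]
    unfold Matrix.trace
    simp only [Matrix.diag_apply, Matrix.reindex_apply, Matrix.submatrix_apply]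
    exact (Equiv.sum_comp e.symm (fun i => (T ^ a) i i)).symm

theorem exists_roots' {m : ℕ} (M : Matrix (Fin m) (Fin m) ℂ) : ∃ α : Fin m → ℂ,
    (∀ j, α j ∈ spectrum ℂ M) ∧ (∀ z : ℂ, (1 - z • M).det = ∏ j, (1 - α j * z)) := by
  have hs : M.charpoly.Splits := IsAlgClosed.splits _
  have hc : M.charpoly.roots.card = m := by
    rw [← hs.natDegree_eq_card_roots, Matrix.charpoly_natDegree_eq_dim, Fintype.card_fin]
  obtain ⟨l, hl⟩ : ∃ l : List ℂ, (l : Multiset ℂ) = M.charpoly.roots :=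
    ⟨M.charpoly.roots.toList, Multiset.coe_toList _⟩
  have hlm : l.length = m := by
    rw [← Multiset.coe_card, hl, hc]
  subst hlm
  refine ⟨fun j => l.get j, fun j => ?_, fun z => ?_⟩
  · rw [Matrix.mem_spectrum_iff_isRoot_charpoly]
    have h1 : l.get j ∈ M.charpoly.roots := by
      rw [← hl]
      exact List.get_mem l j
    exact (Polynomial.mem_roots'.1 h1).2
  · have hp : M.charpoly = (M.charpoly.roots.map fun a => Polynomial.X - Polynomial.C a).prod :=
      hs.eq_prod_roots_of_monic (Matrix.charpoly_monic M)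
    have h2 : ∀ x : ℂ, M.charpoly.eval x = ∏ j, (x - l.get j) := by
      intro x
      rw [hp, ← hl, Multiset.map_coe, Multiset.prod_coe, Polynomial.eval_list_prod, List.map_map]
      have : (List.map ((Polynomial.eval x) ∘ fun a => Polynomial.X - Polynomial.C a) l) =
          List.map (fun a => x - a) l := by
        refine List.map_congr_left fun a _ => ?_
        simp
      rw [this, ← List.prod_ofFn]
      congr 1
      exact (List.ofFn_getElem_eq_map l (fun a => x - a)).symm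
    rcases eq_or_ne z 0 with hz | hz
    · subst hz
      simp
    · have h3 : (1 - z • M) = z • (Matrix.scalar (Fin l.length) z⁻¹ - M) := by
        have e1 : (Matrix.scalar (Fin l.length) z⁻¹ : Matrix (Fin l.length) (Fin l.length) ℂ) =
            z⁻¹ • 1 := by
          rw [Matrix.scalar_apply, Matrix.smul_one_eq_diagonal]
        rw [e1, smul_sub, smul_smul, mul_inv_cancel₀ hz, one_smul]
      rw [h3, Matrix.det_smul, Fintype.card_fin, ← Matrix.eval_charpoly, h2, ← Fin.prod_const,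
        ← Finset.prod_mul_distrib]
      refine Finset.prod_congr rfl fun j _ => ?_
      field_simp

end

/-! ### Permutation matrices -/

section
variable {K : Type} [Field K] (F : IntermediateField K (AlgebraicClosure K)) [FiniteDimensional K F]

/-- the permutation matrix of `σ` on the embeddings of `F` -/
noncomputable def pm (σ : Gal(AlgebraicClosure K/K)) :
    Matrix (F →ₐ[K] AlgebraicClosure K) (F →ₐ[K] AlgebraicClosure K) ℚ :=
  Matrix.of fun i j => if (σ : AlgebraicClosure K →ₐ[K] AlgebraicClosure K).comp j = i then 1 else 0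

theorem pm_one : pm F 1 = 1 := by
  ext i j
  unfold pm
  rw [Matrix.of_apply, Matrix.one_apply]
  have : ((1 : Gal(AlgebraicClosure K/K)) : AlgebraicClosure K →ₐ[K] AlgebraicClosure K).comp j =
    j := rfl
  rw [this]
  simp only [eq_comm]

theorem pm_mul (σ τ : Gal(AlgebraicClosure K/K)) : pm F (σ * τ) = pm F σ * pm F τ := by
  ext i j
  unfold pm
  rw [Matrix.mul_apply, Matrix.of_apply]
  simp only [Matrix.of_apply]
  rw [Finset.sum_eq_single ((τ : AlgebraicClosure K →ₐ[K] AlgebraicClosure K).comp j)]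
  · rw [if_pos rfl, mul_one]
    rfl
  · intro b _ hb
    have hb' : ¬ (τ : AlgebraicClosure K →ₐ[K] AlgebraicClosure K).comp j = b := fun h => hb h.symm
    rw [if_neg hb', mul_zero]
  · intro h
    exact absurd (Finset.mem_univ _) h

theorem pm_pow (σ : Gal(AlgebraicClosure K/K)) (k : ℕ) : pm F (σ ^ k) = pm F σ ^ k := by
  induction k with
  | zero => rw [pow_zero, pow_zero, pm_one]
  | succ k ih => rw [pow_succ, pow_succ, pm_mul, ih]

theorem pm_finite (σ : Gal(AlgebraicClosure K/K)) : ∃ k : ℕ, 0 < k ∧ pm F σ ^ k = 1 := by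
  have h1 : ∃ k : ℕ, 0 < k ∧ (act K F σ) ^ k = 1 := by
    obtain ⟨k, hk, h⟩ := isOfFinOrder_iff_pow_eq_one.1 (isOfFinOrder_of_finite (act K F σ))
    exact ⟨k, hk, h⟩
  obtain ⟨k, hk, h⟩ := h1
  refine ⟨k, hk, ?_⟩
  rw [← pm_pow, ← pm_one]
  ext i j
  unfold pm
  rw [Matrix.of_apply, Matrix.of_apply]
  have h2 : ((σ ^ k : Gal(AlgebraicClosure K/K)) :
      AlgebraicClosure K →ₐ[K] AlgebraicClosure K).comp j =
      ((1 : Gal(AlgebraicClosure K/K)) : AlgebraicClosure K →ₐ[K] AlgebraicClosure K).comp j := by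
    have h3 : act K F (σ ^ k) j = act K F 1 j := by rw [map_pow, h, map_one]
    exact h3
  rw [h2]

theorem pm_trace (σ : Gal(AlgebraicClosure K/K)) : (pm F σ).trace = fixn K F σ := by
  unfold Matrix.trace pm fixn
  simp only [Matrix.diag_apply, Matrix.of_apply]
  rw [Finset.sum_boole, Nat.card_eq_fintype_card, Fintype.card_subtype]
  rfl

/-- the complex permutation matrix -/
noncomputable def pmC (σ : Gal(AlgebraicClosure K/K)) :
    Matrix (F →ₐ[K] AlgebraicClosure K) (F →ₐ[K] AlgebraicClosure K) ℂ :=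
  (pm F σ).map (algebraMap ℚ ℂ)

theorem pmC_pow (σ : Gal(AlgebraicClosure K/K)) (k : ℕ) : pmC F σ ^ k = pmC F (σ ^ k) := by
  unfold pmC
  rw [pm_pow]
  exact (map_pow (algebraMap ℚ ℂ).mapMatrix (pm F σ) k).symm

theorem pmC_eig (σ : Gal(AlgebraicClosure K/K)) :
    ∃ l : Fin (Fintype.card (F →ₐ[K] AlgebraicClosure K)) → ℂ, (∀ j, ‖l j‖ = 1) ∧
      (∀ c : ℂ, (1 - c • pmC F σ).det = ∏ j, (1 - c * l j)) ∧
      ∀ k : ℕ, (fixn K F (σ ^ k) : ℂ) = ∑ j, l j ^ k := by
  obtain ⟨k, hk, h⟩ := pm_finite F σ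
  have h1 : pmC F σ ^ k = 1 := by
    rw [pmC_pow]
    unfold pmC
    rw [pm_pow, h]
    exact map_one (algebraMap ℚ ℂ).mapMatrix
  obtain ⟨l, h2, h3, h4⟩ := eig_mat' _ hk h1
  refine ⟨l, h2, h3, fun e => ?_⟩
  rw [← h4, pmC_pow]
  unfold pmC Matrix.trace
  simp only [Matrix.diag_apply, Matrix.map_apply]
  rw [← map_sum]
  have h5 := pm_trace F (σ ^ e)
  unfold Matrix.trace at h5
  simp only [Matrix.diag_apply] at h5
  rw [h5]
  simp

/-- the permutation character -/
noncomputable def chF (σ : Gal(AlgebraicClosure K/K)) : ℂ := (fixn K F σ : ℂ)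

theorem chF_le (σ : Gal(AlgebraicClosure K/K)) :
    ‖chF F σ‖ ≤ Fintype.card (F →ₐ[K] AlgebraicClosure K) := by
  unfold chF
  rw [Complex.norm_natCast]
  have h1 : fixn K F σ ≤ Fintype.card (F →ₐ[K] AlgebraicClosure K) := by
    unfold fixn
    rw [← Nat.card_eq_fintype_card]
    exact Nat.card_le_card_of_injective Subtype.val Subtype.val_injective
  exact_mod_cast h1

/-- the Euler polynomial `det(1 - X Φ ⊗ P_F(σ))` -/
noncomputable def eul {n : ℕ} (Φ : Matrix (Fin n) (Fin n) ℚ) (σ : Gal(AlgebraicClosure K/K)) :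
    ℚ[X] :=
  (1 - (X : ℚ[X]) • (Φ ⊗ₖ pm F σ).map (C : ℚ → ℚ[X])).det

theorem eul_eval {n : ℕ} (Φ : Matrix (Fin n) (Fin n) ℚ) (σ : Gal(AlgebraicClosure K/K)) (z : ℂ) :
    aeval z (eul F Φ σ) = (1 - z • (Φ.map (algebraMap ℚ ℂ) ⊗ₖ pmC F σ)).det := by
  unfold eul
  have h1 := RingHom.map_det ((aeval z : ℚ[X] →ₐ[ℚ] ℂ) : ℚ[X] →+* ℂ)
    (1 - (X : ℚ[X]) • (Φ ⊗ₖ pm F σ).map (C : ℚ → ℚ[X]))
  refine h1.trans ?_
  congr 1
  ext i j
  simp only [RingHom.mapMatrix_apply, Matrix.map_apply, Matrix.sub_apply, Matrix.smul_apply,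
    smul_eq_mul, RingHom.coe_coe, map_sub, map_mul, aeval_X, aeval_C, Matrix.kroneckerMap_apply,
    pmC]
  congr 1
  by_cases hij : i = j
  · rw [hij, Matrix.one_apply_eq, Matrix.one_apply_eq, map_one]
  · rw [Matrix.one_apply_ne hij, Matrix.one_apply_ne hij, map_zero]

theorem eul_prod {n : ℕ} (Φ : Matrix (Fin n) (Fin n) ℚ) (σ : Gal(AlgebraicClosure K/K))
    {α : Fin n → ℂ} (hα : ∀ z : ℂ, (1 - z • Φ.map (algebraMap ℚ ℂ)).det = ∏ i, (1 - α i * z))
    {l : Fin (Fintype.card (F →ₐ[K] AlgebraicClosure K)) → ℂ}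
    (hl : ∀ c : ℂ, (1 - c • pmC F σ).det = ∏ j, (1 - c * l j)) (z : ℂ) :
    aeval z (eul F Φ σ) = ∏ i, ∏ j, (1 - α i * z * l j) := by
  rw [eul_eval, det_kron' _ _ α hα]
  refine Finset.prod_congr rfl fun i _ => ?_
  rw [hl]
  exact Finset.prod_congr rfl fun j _ => by ring

end

end Pool.Agent.Q246.VR
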