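import Pool.Agent.Q246.VR.Det

/-! Rational structures of complex vector spaces with group action. -/

set_option autoImplicit false

namespace Pool.Agent.Q246.VR

open scoped Classical

section
variable {M : Type} [AddCommGroup M] [Module ℂ M] [Module ℚ M]

/-- `D` is a rational structure of `P` -/
def Str (D : Submodule ℚ M) (P : Submodule ℂ M) : Prop :=
  (∀ d ∈ D, d ∈ P) ∧ (∀ p ∈ P, p ∈ Submodule.span ℂ (D : Set M)) ∧
    ∀ (n : ℕ) (v : Fin n → M), (∀ i, v i ∈ D) → LinearIndependent ℚ v → LinearIndependent ℂ v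

/-- bases -/
structure IsB {k : ℕ} (b : Fin k → M) (D : Submodule ℚ M) : Prop where
  li : LinearIndependent ℚ b
  sp : Submodule.span ℚ (Set.range b) = D

theorem IsB.mem {k : ℕ} {b : Fin k → M} {D : Submodule ℚ M} (h : IsB b D) (i : Fin k) :
    b i ∈ D := h.sp ▸ Submodule.subset_span ⟨i, rfl⟩

theorem IsB.liC {k : ℕ} {b : Fin k → M} {D : Submodule ℚ M} {P : Submodule ℂ M} (h : IsB b D)
    (hs : Str D P) : LinearIndependent ℂ b := hs.2.2 k b h.mem h.li

theorem IsB.spC {k : ℕ} {b : Fin k → M} {D : Submodule ℚ M} {P : Submodule ℂ M} (h : IsB b D)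
    (hs : Str D P) : Submodule.span ℂ (Set.range b) = P := by
  apply le_antisymm
  · refine Submodule.span_le.2 ?_
    rintro _ ⟨i, rfl⟩
    exact hs.1 _ (h.mem i)
  · intro p hp
    have h1 : (D : Set M) ⊆ (Submodule.span ℂ (Set.range b) : Set M) := by
      intro d hd
      have h2 : d ∈ Submodule.span ℚ (Set.range b) := by rw [h.sp]; exact hd
      exact Submodule.span_subset_span ℚ ℂ _ h2
    exact Submodule.span_le.2 h1 (hs.2.1 p hp)

theorem Str.exists_basis {D : Submodule ℚ M} {P : Submodule ℂ M} [FiniteDimensional ℂ P]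
    (hs : Str D P) : ∃ b : Fin (Module.finrank ℂ P) → M, IsB b D := by
  let B := Module.Basis.ofVectorSpace ℚ D
  have hfin : Finite (Module.Basis.ofVectorSpaceIndex ℚ D) := by
    by_contra hinf
    rw [not_finite_iff_infinite] at hinf
    let e : Fin (Module.finrank ℂ P + 1) ↪ Module.Basis.ofVectorSpaceIndex ℚ D :=
      (Fin.valEmbedding).trans (Infinite.natEmbedding _)
    have h1 : LinearIndependent ℚ (fun i => ((B (e i) : D) : M)) :=
      (B.linearIndependent.comp e e.injective).map' D.subtype (Submodule.ker_subtype D)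
    have h2 := hs.2.2 _ _ (fun i => (B (e i)).2) h1
    have h3 : LinearIndependent ℂ (fun i => (⟨(B (e i) : D), hs.1 _ (B (e i)).2⟩ : P)) :=
      LinearIndependent.of_comp P.subtype h2
    have h4 := h3.fintype_card_le_finrank
    rw [Fintype.card_fin] at h4
    omega
  have : Fintype (Module.Basis.ofVectorSpaceIndex ℚ D) := Fintype.ofFinite _
  let k := Fintype.card (Module.Basis.ofVectorSpaceIndex ℚ D)
  let B' : Module.Basis (Fin k) ℚ D := B.reindex (Fintype.equivFin _)
  have hB : IsB (fun i => ((B' i : D) : M)) D := by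
    refine ⟨B'.linearIndependent.map' D.subtype (Submodule.ker_subtype D), ?_⟩
    have h1 := B'.span_eq
    have h2 := congrArg (Submodule.map D.subtype) h1
    rw [Submodule.map_span, ← Set.range_comp, Submodule.map_top, Submodule.range_subtype] at h2
    exact h2
  have hk : k = Module.finrank ℂ P := by
    have h1 : LinearIndependent ℂ (fun i => (⟨(B' i : D), hs.1 _ (B' i).2⟩ : P)) :=
      LinearIndependent.of_comp P.subtype (hB.liC hs)
    have h2 : ⊤ ≤ Submodule.span ℂ (Set.range fun i => (⟨(B' i : D), hs.1 _ (B' i).2⟩ : P)) := by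
      intro p _
      have h3 := hB.spC hs
      have h4 : (p : M) ∈ Submodule.span ℂ (Set.range fun i => ((B' i : D) : M)) := by
        rw [h3]; exact p.2
      have h5 : (Set.range fun i => ((B' i : D) : M)) =
          P.subtype '' (Set.range fun i => (⟨(B' i : D), hs.1 _ (B' i).2⟩ : P)) := by
        rw [← Set.range_comp]
        rfl
      rw [h5, ← Submodule.map_span] at h4
      obtain ⟨y, hy, hy'⟩ := h4
      have : y = p := Subtype.ext hy'
      rw [← this]
      exact hy
    have h6 := Module.finrank_eq_card_basis (Module.Basis.mk h1 h2)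
    rw [Fintype.card_fin] at h6
    exact h6.symm
  rw [← hk]
  exact ⟨_, hB⟩

/-- the size of a basis -/
theorem IsB.card {k : ℕ} {b : Fin k → M} {D : Submodule ℚ M} {P : Submodule ℂ M}
    [FiniteDimensional ℂ P] (h : IsB b D) (hs : Str D P) : k = Module.finrank ℂ P := by
  have h1 : LinearIndependent ℂ (fun i => (⟨b i, hs.1 _ (h.mem i)⟩ : P)) :=
    LinearIndependent.of_comp P.subtype (h.liC hs)
  have h2 : ⊤ ≤ Submodule.span ℂ (Set.range fun i => (⟨b i, hs.1 _ (h.mem i)⟩ : P)) := by
    intro p _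
    have h3 := h.spC hs
    have h4 : (p : M) ∈ Submodule.span ℂ (Set.range b) := by
      rw [h3]; exact p.2
    have h5 : (Set.range b) = P.subtype '' (Set.range fun i => (⟨b i, hs.1 _ (h.mem i)⟩ : P)) := by
      rw [← Set.range_comp]
      rfl
    rw [h5, ← Submodule.map_span] at h4
    obtain ⟨y, hy, hy'⟩ := h4
    have : y = p := Subtype.ext hy'
    rw [← this]
    exact hy
  have h6 := Module.finrank_eq_card_basis (Module.Basis.mk h1 h2)
  rw [Fintype.card_fin] at h6
  exact h6.symm

end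

section
variable {G : Type} [Group G] {M : Type} [AddCommGroup M] [Module ℂ M] [Module ℚ M]
  {ρ : G →* (M →ₗ[ℂ] M)} {N : Subgroup G} [N.Normal] [Finite (G ⧸ N)]

/-- `D` is stable under `G` -/
def Stable (ρ : G →* (M →ₗ[ℂ] M)) (D : Submodule ℚ M) : Prop := ∀ g, ∀ d ∈ D, ρ g d ∈ D

/-- the invariants of `H` in `D` -/
noncomputable def dinv (ρ : G →* (M →ₗ[ℂ] M)) (D : Submodule ℚ M) (H : Subgroup G) : Submodule ℚ M :=
  D ⊓ (inv ρ H).restrictScalars ℚ

theorem mem_dinv {D : Submodule ℚ M} {H : Subgroup G} {m : M} :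
    m ∈ dinv ρ D H ↔ m ∈ D ∧ m ∈ inv ρ H := Iff.rfl

/-- the invariants of a rational structure -/
theorem str_inv {D : Submodule ℚ M} (hD : Stable ρ D) (hN : ∀ n ∈ N, ρ n = 1)
    (hs : Str D ⊤) {H : Subgroup G} (hNH : N ≤ H) : Str (dinv ρ D H) (inv ρ H) := by
  refine ⟨fun d hd => hd.2, fun p hp => ?_, fun n v hv h => hs.2.2 n v (fun i => (hv i).1) h⟩
  have hpos' : (ordH N H : ℂ) ≠ 0 := by exact_mod_cast (ordH_pos (N := N) hNH).ne'
  have h1 : ∀ m ∈ Submodule.span ℂ (D : Set M), sumH ρ N H m ∈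
      Submodule.span ℂ (dinv ρ D H : Set M) := by
    intro m hm
    induction hm using Submodule.span_induction with
    | mem d hd =>
      refine Submodule.subset_span ⟨?_, sumH_mem hN hNH d⟩
      exact Submodule.sum_mem _ fun q _ => hD _ d hd
    | zero =>
      have : sumH ρ N H (0 : M) = 0 := by unfold sumH; simp
      rw [this]
      exact Submodule.zero_mem _
    | add x y _ _ hx hy =>
      have : sumH ρ N H (x + y) = sumH ρ N H x + sumH ρ N H y := by
        unfold sumH
        simp [Finset.sum_add_distrib]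
      rw [this]
      exact Submodule.add_mem _ hx hy
    | smul c x _ hx =>
      have : sumH ρ N H (c • x) = c • sumH ρ N H x := by
        unfold sumH
        simp [Finset.smul_sum]
      rw [this]
      exact Submodule.smul_mem _ _ hx
  have h2 := h1 p (hs.2.1 p Submodule.mem_top)
  rw [sumH_inv hp] at h2
  have h3 := Submodule.smul_mem _ ((ordH N H : ℂ)⁻¹) h2
  rw [smul_smul, inv_mul_cancel₀ hpos', one_smul] at h3
  exact h3

variable [FiniteDimensional ℂ M]

/-- **Two rational structures are isomorphic.** -/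
theorem exists_iso {D V : Submodule ℚ M} (hD : Stable ρ D) (hV : Stable ρ V)
    (hN : ∀ n ∈ N, ρ n = 1) (hsD : Str D ⊤) (hsV : Str V ⊤) :
    ∃ u : M →ₗ[ℂ] M, (∀ g m, u (ρ g m) = ρ g (u m)) ∧ Function.Injective u ∧
      ∀ d ∈ D, u d ∈ V := by
  have hex1 := hsD.exists_basis
  have hex2 := hsV.exists_basis
  generalize Module.finrank ℂ (⊤ : Submodule ℂ M) = k at hex1 hex2
  obtain ⟨b', hb'⟩ := hex1
  obtain ⟨b, hb⟩ := hex2
  let B' : Module.Basis (Fin k) ℂ M := Module.Basis.mk (hb'.liC hsD) (hb'.spC hsD).ge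
  let B : Module.Basis (Fin k) ℂ M := Module.Basis.mk (hb.liC hsV) (hb.spC hsV).ge
  have hB' : ∀ i, B' i = b' i := fun i => Module.Basis.mk_apply (hb'.liC hsD) (hb'.spC hsD).ge i
  have hB : ∀ i, B i = b i := fun i => Module.Basis.mk_apply (hb.liC hsV) (hb.spC hsV).ge i
  -- rational coordinates
  have hcoord : ∀ d ∈ D, ∀ j, ∃ x : ℚ, B'.coord j d = x := by
    intro d hd
    rw [← hb'.sp] at hd
    induction hd using Submodule.span_induction with
    | mem d hd =>
      obtain ⟨i, rfl⟩ := hd
      intro j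
      refine ⟨if i = j then 1 else 0, ?_⟩
      rw [← hB', Module.Basis.coord_apply, Module.Basis.repr_self, Finsupp.single_apply]
      split_ifs <;> simp
    | zero => exact fun j => ⟨0, by simp⟩
    | add x y _ _ hx hy =>
      intro j
      obtain ⟨a, ha⟩ := hx j
      obtain ⟨c, hc⟩ := hy j
      exact ⟨a + c, by rw [map_add, ha, hc]; push_cast; rfl⟩
    | smul c x _ hx =>
      intro j
      obtain ⟨a, ha⟩ := hx j
      refine ⟨c * a, ?_⟩
      have h1 : c • x = (c : ℂ) • x := (Rat.cast_smul_eq_qsmul ℂ c x).symm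
      rw [h1, map_smul, ha, smul_eq_mul]
      push_cast
      rfl
  let E : Fin k × Fin k → (M →ₗ[ℂ] M) := fun p => (B'.coord p.2).smulRight (b p.1)
  have hE : ∀ p, ∀ d ∈ D, E p d ∈ V := by
    intro p d hd
    obtain ⟨x, hx⟩ := hcoord d hd p.2
    change B'.coord p.2 d • b p.1 ∈ V
    rw [hx, Rat.cast_smul_eq_qsmul]
    exact V.smul_mem _ (hb.mem _)
  let f : Fin k × Fin k → (M →ₗ[ℂ] M) := fun p =>
    ∑ q : G ⧸ N, ρ q.out * E p * ρ q.out⁻¹
  have hfD : ∀ p, ∀ d ∈ D, f p d ∈ V := by
    intro p d hd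
    simp only [f, LinearMap.sum_apply]
    exact Submodule.sum_mem _ fun q _ => hV _ _ (hE p _ (hD _ _ hd))
  have hfc : ∀ p g m, f p (ρ g m) = ρ g (f p m) := by
    intro p g m
    simp only [f, LinearMap.sum_apply, map_sum]
    rw [← reindex (N := N) g (fun q => (ρ q.out * E p * ρ q.out⁻¹) (ρ g m))]
    refine Finset.sum_congr rfl fun q _ => ?_
    have e1 : ρ ((g : G ⧸ N) * q).out = ρ g * ρ q.out := out_mul hN g q
    have e2 : ρ ((g : G ⧸ N) * q).out⁻¹ = ρ (g * q.out)⁻¹ := by
      have e3 : ρ ((g : G ⧸ N) * q).out⁻¹ * ρ ((g : G ⧸ N) * q).out = 1 := by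
        rw [← map_mul, inv_mul_cancel, map_one]
      have e4 : ρ (g * q.out) * ρ (g * q.out)⁻¹ = 1 := by
        rw [← map_mul, mul_inv_cancel, map_one]
      rw [e1, ← map_mul ρ] at e3
      calc ρ ((g : G ⧸ N) * q).out⁻¹ = ρ ((g : G ⧸ N) * q).out⁻¹ * (ρ (g * q.out) *
          ρ (g * q.out)⁻¹) := by rw [e4, mul_one]
        _ = ρ (g * q.out)⁻¹ := by rw [← mul_assoc, e3, one_mul]
    rw [e1, e2]
    simp only [Module.End.mul_apply]
    have e5 : ρ (g * q.out)⁻¹ (ρ g m) = ρ q.out⁻¹ m := by
      rw [← Module.End.mul_apply, ← map_mul]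
      congr 2
      group
    rw [e5]
  -- the identity
  let c : Fin k × Fin k → ℂ := fun p => B.coord p.1 (b' p.2)
  have hid : ∑ p, c p • E p = 1 := by
    apply B'.ext
    intro j
    rw [LinearMap.sum_apply, Module.End.one_apply, hB', Fintype.sum_prod_type_right]
    have h1 : ∀ j' : Fin k, ∑ i : Fin k, (c (i, j') • E (i, j')) (b' j) =
        if j' = j then b' j else 0 := by
      intro j'
      have h2 : ∀ i : Fin k, (c (i, j') • E (i, j')) (b' j) =
          if j' = j then B.coord i (b' j') • b i else 0 := by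
        intro i
        change c (i, j') • (B'.coord j' (b' j) • b i) = _
        rw [← hB' j, Module.Basis.coord_apply, Module.Basis.repr_self, Finsupp.single_apply]
        by_cases hj : j' = j
        · subst hj
          rw [if_pos rfl, if_pos rfl, one_smul]
        · rw [if_neg (fun h => hj h.symm), if_neg hj, zero_smul, smul_zero]
      rw [Finset.sum_congr rfl fun i _ => h2 i]
      split_ifs with hj
      · subst hj
        have h3 := B.sum_repr (b' j')
        simp only [hB] at h3
        exact h3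
      · exact Finset.sum_const_zero
    rw [Finset.sum_congr rfl fun j' _ => h1 j', Finset.sum_ite_eq' Finset.univ j]
    simp
  have hQ : (Nat.card (G ⧸ N) : ℂ) ≠ 0 := by exact_mod_cast Nat.card_pos.ne'
  have hidf : ∑ p, c p • f p = (Nat.card (G ⧸ N) : ℂ) • (1 : M →ₗ[ℂ] M) := by
    have h1 : ∀ p, c p • f p = ∑ q : G ⧸ N, ρ q.out * (c p • E p) * ρ q.out⁻¹ := by
      intro p
      simp only [f, Finset.smul_sum]
      refine Finset.sum_congr rfl fun q _ => ?_
      rw [mul_smul_comm, smul_mul_assoc]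
    rw [Finset.sum_congr rfl fun p _ => h1 p, Finset.sum_comm]
    have h2 : ∀ q : G ⧸ N, ∑ p, ρ q.out * (c p • E p) * ρ q.out⁻¹ = 1 := by
      intro q
      rw [← Finset.sum_mul, ← Finset.mul_sum, hid, mul_one, ← map_mul, mul_inv_cancel, map_one]
    rw [Finset.sum_congr rfl fun q _ => h2 q, Finset.sum_const, Finset.card_univ,
      Nat.card_eq_fintype_card, Nat.cast_smul_eq_nsmul]
  -- the polynomial
  let A : Fin k × Fin k → Matrix (Fin k) (Fin k) ℂ := fun p => LinearMap.toMatrix B' B' (f p)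
  let Q : MvPolynomial (Fin k × Fin k) ℂ :=
    (∑ p, (MvPolynomial.X p : MvPolynomial (Fin k × Fin k) ℂ) •
      (A p).map (MvPolynomial.C : ℂ → MvPolynomial (Fin k × Fin k) ℂ)).det
  have hQe : ∀ x : Fin k × Fin k → ℂ, MvPolynomial.eval x Q =
      LinearMap.det (∑ p, x p • f p) := by
    intro x
    rw [← LinearMap.det_toMatrix B']
    simp only [Q]
    rw [RingHom.map_det]
    congr 1
    rw [map_sum, map_sum]
    refine Finset.sum_congr rfl fun p _ => ?_
    ext i j
    simp [A]
  have hex : ∃ x : Fin k × Fin k → ℚ, MvPolynomial.eval (fun p => (x p : ℂ)) Q ≠ 0 := by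
    by_contra hno
    push Not at hno
    have h1 : Q = 0 := by
      refine MvPolynomial.funext_set (fun _ => Set.range ((↑) : ℚ → ℂ))
        (fun _ => Set.infinite_range_of_injective Rat.cast_injective) fun x hx => ?_
      choose y hy using fun p => hx p (Set.mem_univ p)
      have : x = fun p => (y p : ℂ) := funext fun p => (hy p).symm
      rw [this, hno y, map_zero]
    have h2 := hQe c
    rw [h1, map_zero, hidf, LinearMap.det_smul, map_one, mul_one] at h2
    exact pow_ne_zero _ hQ h2.symm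
  obtain ⟨x, hx⟩ := hex
  rw [hQe] at hx
  refine ⟨∑ p, (x p : ℂ) • f p, fun g m => ?_, ?_, fun d hd => ?_⟩
  · simp only [LinearMap.sum_apply, LinearMap.smul_apply, map_sum, map_smul]
    exact Finset.sum_congr rfl fun p _ => by rw [hfc]
  · have h1 := LinearMap.equivOfDetNeZero _ hx
    have h2 : Function.Bijective (∑ p, (x p : ℂ) • f p : M →ₗ[ℂ] M) := by
      rw [← Module.End.isUnit_iff]
      exact (LinearMap.isUnit_iff_isUnit_det _).2 (isUnit_iff_ne_zero.2 hx)
    exact h2.1
  · rw [LinearMap.sum_apply]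
    refine Submodule.sum_mem _ fun p _ => ?_
    rw [LinearMap.smul_apply, Rat.cast_smul_eq_qsmul]
    exact V.smul_mem _ (hfD p d hd)

end

end Pool.Agent.Q246.VR
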