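import Pool.Agent.Q246.VR.Str

/-! Volumes of rational structures on the invariants. -/

set_option autoImplicit false

namespace Pool.Agent.Q246.VR

open scoped Classical

section
variable {M : Type} [AddCommGroup M] [Module ℂ M] [Module ℚ M]

/-- `r` is the volume of `V` measured against `D` -/
def IsVol (D V : Submodule ℚ M) (r : ℂ) : Prop :=
  ∃ (k : ℕ) (b' b : Fin k → M) (A : Matrix (Fin k) (Fin k) ℂ), IsB b' D ∧ IsB b V ∧
    (∀ j, b j = ∑ i, A i j • b' i) ∧ A.det = r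

/-- a basis over `ℂ` from a basis over `ℚ` -/
noncomputable def cb {k : ℕ} {b : Fin k → M} {D : Submodule ℚ M} {P : Submodule ℂ M}
    (h : IsB b D) (hs : Str D P) : Module.Basis (Fin k) ℂ P :=
  Module.Basis.mk (v := fun i => (⟨b i, hs.1 _ (h.mem i)⟩ : P))
    (LinearIndependent.of_comp P.subtype (h.liC hs)) (by
      intro p _
      have h3 := h.spC hs
      have h4 : (p : M) ∈ Submodule.span ℂ (Set.range b) := by
        rw [h3]; exact p.2
      have h5 : (Set.range b) = P.subtype '' (Set.range fun i => (⟨b i, hs.1 _ (h.mem i)⟩ : P)) := by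
        rw [← Set.range_comp]
        rfl
      rw [h5, ← Submodule.map_span] at h4
      obtain ⟨y, hy, hy'⟩ := h4
      have : y = p := Subtype.ext hy'
      rw [← this]
      exact hy)

theorem cb_apply {k : ℕ} {b : Fin k → M} {D : Submodule ℚ M} {P : Submodule ℂ M}
    (h : IsB b D) (hs : Str D P) (i : Fin k) : ((cb h hs i : P) : M) = b i := by
  unfold cb
  rw [Module.Basis.mk_apply]

/-- volumes are different from zero -/
theorem vol_ne {D V : Submodule ℚ M} {P : Submodule ℂ M} (hD : Str D P) (hV : Str V P) {r : ℂ}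
    (h : IsVol D V r) : r ≠ 0 := by
  obtain ⟨k, b', b, A, h1, h2, h3, rfl⟩ := h
  intro h0
  obtain ⟨v, hv0, hv⟩ := Matrix.exists_mulVec_eq_zero_iff.2 h0
  have h4 := h2.liC hV
  rw [Fintype.linearIndependent_iff] at h4
  apply hv0
  funext j
  refine h4 v ?_ j
  have h5 : ∀ j, v j • b j = ∑ i, (A i j * v j) • b' i := by
    intro j
    rw [h3, Finset.smul_sum]
    refine Finset.sum_congr rfl fun i _ => ?_
    rw [smul_smul, mul_comm]
  rw [Finset.sum_congr rfl fun j _ => h5 j, Finset.sum_comm]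
  refine Finset.sum_eq_zero fun i _ => ?_
  rw [← Finset.sum_smul]
  have h6 : ∑ j, A i j * v j = 0 := congrFun hv i
  rw [h6, zero_smul]

end

section
variable {G : Type} [Group G] {M : Type} [AddCommGroup M] [Module ℂ M] [Module ℚ M]
  {ρ : G →* (M →ₗ[ℂ] M)} [FiniteDimensional ℂ M]

/-- the volume as a determinant -/
theorem vol_eq {D V : Submodule ℚ M} {H : Subgroup G} (hD : Str (dinv ρ D H) (inv ρ H))
    (hV : Str (dinv ρ V H) (inv ρ H)) {u : M →ₗ[ℂ] M} (hu : ∀ g m, u (ρ g m) = ρ g (u m))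
    (huD : ∀ d ∈ D, u d ∈ V) (hinj : Function.Injective u) {r : ℂ}
    (h : IsVol (dinv ρ D H) (dinv ρ V H) r) :
    ∃ y : ℚ, y ≠ 0 ∧ LinearMap.det (uH hu H) = y * r := by
  obtain ⟨k, b', b, A, h1, h2, h3, rfl⟩ := h
  -- the rational matrix
  have hC : ∀ i, ∃ C : Fin k → ℚ, u (b' i) = ∑ j, (C j : ℂ) • b j := by
    intro i
    have h4 : u (b' i) ∈ dinv ρ V H := ⟨huD _ (h1.mem i).1, maps_inv hu H _ (h1.mem i).2⟩
    rw [← h2.sp, Submodule.mem_span_range_iff_exists_fun] at h4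
    obtain ⟨C, hC⟩ := h4
    refine ⟨C, ?_⟩
    rw [← hC]
    exact Finset.sum_congr rfl fun j _ => (Rat.cast_smul_eq_qsmul ℂ (C j) (b j)).symm
  choose C hC using hC
  let C' : Matrix (Fin k) (Fin k) ℚ := fun j i => C i j
  have hU : LinearMap.toMatrix (cb h1 hD) (cb h1 hD) (uH hu H) = A * C'.map (algebraMap ℚ ℂ) := by
    have h4 : ∀ i, (uH hu H) (cb h1 hD i) =
        ∑ l, (A * C'.map (algebraMap ℚ ℂ)) l i • cb h1 hD l := by
      intro i
      apply Subtype.ext
      rw [Submodule.coe_sum]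
      have e1 : ((uH hu H (cb h1 hD i) : inv ρ H) : M) = u (b' i) := by
        change u ((cb h1 hD i : inv ρ H) : M) = _
        rw [cb_apply]
      rw [e1, hC]
      have e2 : ∀ j, ((C i j : ℚ) : ℂ) • b j = ∑ l, (A l j * (C i j : ℂ)) • b' l := by
        intro j
        rw [h3, Finset.smul_sum]
        refine Finset.sum_congr rfl fun l _ => ?_
        rw [smul_smul, mul_comm]
      rw [Finset.sum_congr rfl fun j _ => e2 j, Finset.sum_comm]
      refine Finset.sum_congr rfl fun l _ => ?_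
      rw [← Finset.sum_smul, Submodule.coe_smul, cb_apply]
      congr 1
    ext l i
    rw [LinearMap.toMatrix_apply, h4]
    rw [map_sum, Finset.sum_apply']
    simp only [map_smul, Finsupp.smul_apply, Module.Basis.repr_self, Finsupp.single_apply,
      smul_eq_mul, mul_ite, mul_one, mul_zero, Finset.sum_ite_eq', Finset.mem_univ, if_true]
  have hdet : LinearMap.det (uH hu H) = A.det * (C'.det : ℂ) := by
    rw [← LinearMap.det_toMatrix (cb h1 hD), hU, Matrix.det_mul]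
    congr 1
    have := RingHom.map_det (algebraMap ℚ ℂ) C'
    exact this.symm
  have hne : LinearMap.det (uH hu H) ≠ 0 := by
    intro h0
    obtain ⟨x, hx, hx0⟩ := Submodule.exists_mem_ne_zero_of_ne_bot
      (LinearMap.bot_lt_ker_of_det_eq_zero h0).ne'
    rw [LinearMap.mem_ker] at hx
    have h5 : u x.1 = 0 := congrArg Subtype.val hx
    exact hx0 (Subtype.ext (hinj (h5.trans (map_zero u).symm)))
  refine ⟨C'.det, fun h0 => hne ?_, ?_⟩
  · rw [hdet, h0, Rat.cast_zero, mul_zero]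
  · rw [hdet, mul_comm]

variable {N : Subgroup G} [N.Normal] [Finite (G ⧸ N)]

/-- **Volumes and relations.** -/
theorem vol_relation {D V : Submodule ℚ M} (hD : Stable ρ D) (hV : Stable ρ V)
    (hN : ∀ n ∈ N, ρ n = 1) (hsD : Str D ⊤) (hsV : Str V ⊤) {ι : Type} [Fintype ι]
    (H : ι → Subgroup G) (hNH : ∀ i, N ≤ H i) [∀ i, Finite (G ⧸ H i)] (c : ι → ℤ)
    (h : ∀ g : G, ∑ i, c i * (cos (H i) g : ℤ) = 0) (r : ι → ℂ)
    (hr : ∀ i, IsVol (dinv ρ D (H i)) (dinv ρ V (H i)) (r i)) :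
    ∃ x : ℚ, x ≠ 0 ∧ ∏ i, r i ^ c i = x := by
  obtain ⟨u, hu, hinj, huD⟩ := exists_iso hD hV hN hsD hsV
  have h1 := det_relation hN hu hinj H hNH c h
  choose y hy hy' using fun i => vol_eq (str_inv hD hN hsD (hNH i)) (str_inv hV hN hsV (hNH i)) hu
    huD hinj (hr i)
  refine ⟨∏ i, (y i)⁻¹ ^ c i, Finset.prod_ne_zero_iff.2 fun i _ =>
    zpow_ne_zero _ (inv_ne_zero (hy i)), ?_⟩
  have h2 : (∏ i, (y i : ℂ) ^ c i) * ∏ i, r i ^ c i = 1 := by
    rw [← Finset.prod_mul_distrib, ← h1]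
    refine Finset.prod_congr rfl fun i _ => ?_
    rw [hy', mul_zpow]
  have h3 : (∏ i, (y i : ℂ) ^ c i) ≠ 0 := Finset.prod_ne_zero_iff.2 fun i _ =>
    zpow_ne_zero _ (by exact_mod_cast hy i)
  have h4 : ∏ i, r i ^ c i = (∏ i, (y i : ℂ) ^ c i)⁻¹ := eq_inv_of_mul_eq_one_right h2
  rw [h4]
  push_cast
  rw [← Finset.prod_inv_distrib]
  exact Finset.prod_congr rfl fun i _ => by rw [inv_zpow]

end

/-! ### Infinite-dimensional spaces -/

section
variable {G : Type} [Group G] {W : Type} [AddCommGroup W] [Module ℂ W] [Module ℚ W]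
  (ρ : G →* (W →ₗ[ℂ] W)) (N : Subgroup G) [N.Normal]

theorem maps_N (g : G) : ∀ m ∈ inv ρ N, ρ g m ∈ inv ρ N := by
  intro m hm n hn
  have h1 : n * g = g * (g⁻¹ * n * g) := by group
  have h2 : g⁻¹ * n * g ∈ N := by
    have := (inferInstance : N.Normal).conj_mem n hn g⁻¹
    rwa [inv_inv] at this
  rw [← Module.End.mul_apply, ← map_mul, h1, map_mul, Module.End.mul_apply, hm _ h2]

/-- the action on the invariants of `N` -/
noncomputable def rhoM : G →* (inv ρ N →ₗ[ℂ] inv ρ N) where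
  toFun g := (ρ g).restrict (maps_N ρ N g)
  map_one' := by
    apply LinearMap.ext
    intro x
    apply Subtype.ext
    change ρ 1 x.1 = x.1
    rw [map_one]
    rfl
  map_mul' a b := by
    apply LinearMap.ext
    intro x
    apply Subtype.ext
    change ρ (a * b) x.1 = ρ a (ρ b x.1)
    rw [map_mul]
    rfl

/-- the rational space in the invariants -/
def dM (D : Submodule ℚ W) : Submodule ℚ (inv ρ N) where
  carrier := {x | (x : W) ∈ D}
  add_mem' := fun ha hb => D.add_mem ha hb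
  zero_mem' := D.zero_mem
  smul_mem' := fun c _ hx => D.smul_mem c hx

variable {ρ N}

theorem map_dinv {D : Submodule ℚ W} {H : Subgroup G} (hNH : N ≤ H) (w : W) :
    w ∈ dinv ρ D H ↔ ∃ x : inv ρ N, x ∈ dinv (rhoM ρ N) (dM ρ N D) H ∧ (x : W) = w := by
  constructor
  · intro hw
    refine ⟨⟨w, inv_mono ρ hNH hw.2⟩, ⟨hw.1, fun h hh => Subtype.ext (hw.2 h hh)⟩, rfl⟩
  · rintro ⟨x, hx, rfl⟩
    exact ⟨hx.1, fun h hh => congrArg Subtype.val (hx.2 h hh)⟩

/-- the inclusion over `ℚ` -/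
noncomputable def incQ (ρ : G →* (W →ₗ[ℂ] W)) (N : Subgroup G) [N.Normal] : inv ρ N →ₗ[ℚ] W where
  toFun x := x
  map_add' _ _ := rfl
  map_smul' _ _ := rfl

theorem isB_iff {D : Submodule ℚ W} {H : Subgroup G} (hNH : N ≤ H) {k : ℕ} (b : Fin k → inv ρ N) :
    IsB b (dinv (rhoM ρ N) (dM ρ N D) H) ↔ IsB (fun i => (b i : W)) (dinv ρ D H) := by
  have hinj : Function.Injective (incQ ρ N) := Subtype.val_injective
  have h1 : (dinv (rhoM ρ N) (dM ρ N D) H).map (incQ ρ N) = dinv ρ D H := by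
    ext w
    rw [map_dinv hNH]
    rfl
  have h2 : (Submodule.span ℚ (Set.range b)).map (incQ ρ N) =
      Submodule.span ℚ (Set.range fun i => (b i : W)) := by
    rw [Submodule.map_span, ← Set.range_comp]
    rfl
  constructor
  · rintro ⟨h3, h4⟩
    refine ⟨h3.map' (incQ ρ N) (LinearMap.ker_eq_bot.2 hinj), ?_⟩
    rw [← h2, h4, h1]
  · rintro ⟨h3, h4⟩
    refine ⟨LinearIndependent.of_comp (incQ ρ N) h3, ?_⟩
    rw [← h2, ← h1] at h4
    exact Submodule.map_injective_of_injective hinj h4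

theorem isVol_M {D V : Submodule ℚ W} {H : Subgroup G} (hNH : N ≤ H) {r : ℂ}
    (h : IsVol (dinv ρ D H) (dinv ρ V H) r) :
    IsVol (dinv (rhoM ρ N) (dM ρ N D) H) (dinv (rhoM ρ N) (dM ρ N V) H) r := by
  obtain ⟨k, b', b, A, h1, h2, h3, h4⟩ := h
  refine ⟨k, fun i => ⟨b' i, inv_mono ρ hNH (h1.mem i).2⟩,
    fun i => ⟨b i, inv_mono ρ hNH (h2.mem i).2⟩, A, (isB_iff hNH _).2 h1, (isB_iff hNH _).2 h2,
    fun j => ?_, h4⟩
  apply Subtype.ext
  rw [Submodule.coe_sum]
  exact h3 j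

theorem str_M {D : Submodule ℚ W} (h : Str (dinv ρ D N) (inv ρ N)) : Str (dM ρ N D) ⊤ := by
  refine ⟨fun _ _ => trivial, fun p _ => ?_, fun n v hv hli => ?_⟩
  · have h1 := h.2.1 p.1 p.2
    have h2 : (dinv ρ D N : Set W) = (inv ρ N).subtype '' (dM ρ N D : Set (inv ρ N)) := by
      ext w
      constructor
      · intro hw
        exact ⟨⟨w, hw.2⟩, hw.1, rfl⟩
      · rintro ⟨x, hx, rfl⟩
        exact ⟨hx, x.2⟩
    rw [h2, ← Submodule.map_span] at h1
    obtain ⟨y, hy, hy'⟩ := h1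
    have : y = p := Subtype.ext hy'
    rw [← this]
    exact hy
  · have h1 : LinearIndependent ℚ (fun i => ((v i : inv ρ N) : W)) :=
      hli.map' (incQ ρ N) (LinearMap.ker_eq_bot.2 Subtype.val_injective)
    exact LinearIndependent.of_comp (inv ρ N).subtype (h.2.2 n _ (fun i => ⟨hv i, (v i).2⟩) h1)

theorem stable_M {D : Submodule ℚ W} (h : Stable ρ D) : Stable (rhoM ρ N) (dM ρ N D) :=
  fun g d hd => h g d.1 hd

theorem triv_M (n : G) (hn : n ∈ N) : rhoM ρ N n = 1 := by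
  apply LinearMap.ext
  intro x
  exact Subtype.ext (x.2 n hn)

/-- the invariants of larger groups -/
theorem str_W [Finite (G ⧸ N)] {D : Submodule ℚ W} (hD : Stable ρ D)
    (h : Str (dinv ρ D N) (inv ρ N)) {H : Subgroup G} (hNH : N ≤ H) :
    Str (dinv ρ D H) (inv ρ H) := by
  have h1 := str_inv (N := N) (stable_M (N := N) hD) triv_M (str_M h) hNH
  have h2 : ∀ w : W, w ∈ inv ρ H ↔ ∃ x : inv ρ N, x ∈ inv (rhoM ρ N) H ∧ (x : W) = w := by
    intro w
    constructor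
    · intro hw
      exact ⟨⟨w, inv_mono ρ hNH hw⟩, fun h hh => Subtype.ext (hw h hh), rfl⟩
    · rintro ⟨x, hx, rfl⟩
      exact fun h hh => congrArg Subtype.val (hx h hh)
  refine ⟨fun d hd => hd.2, fun p hp => ?_, fun n v hv hli =>
    h.2.2 n v (fun i => ⟨(hv i).1, inv_mono ρ hNH (hv i).2⟩) hli⟩
  obtain ⟨x, hx, rfl⟩ := (h2 p).1 hp
  have h3 := h1.2.1 x hx
  have h4 : (inv ρ N).subtype x ∈ (Submodule.span ℂ (dinv (rhoM ρ N) (dM ρ N D) H :
      Set (inv ρ N))).map (inv ρ N).subtype := ⟨x, h3, rfl⟩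
  rw [Submodule.map_span] at h4
  have h5 : (inv ρ N).subtype '' (dinv (rhoM ρ N) (dM ρ N D) H : Set (inv ρ N)) =
      (dinv ρ D H : Set W) := by
    ext w
    exact (map_dinv hNH w).symm
  rw [h5] at h4
  exact h4

/-- **Volumes and relations**, infinite-dimensional version. -/
theorem vol_relation_W [Finite (G ⧸ N)] [FiniteDimensional ℂ (inv ρ N)] {D V : Submodule ℚ W}
    (hD : Stable ρ D) (hV : Stable ρ V) (hsD : Str (dinv ρ D N) (inv ρ N))
    (hsV : Str (dinv ρ V N) (inv ρ N)) {ι : Type} [Fintype ι]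
    (H : ι → Subgroup G) (hNH : ∀ i, N ≤ H i) [∀ i, Finite (G ⧸ H i)] (c : ι → ℤ)
    (h : ∀ g : G, ∑ i, c i * (cos (H i) g : ℤ) = 0) (r : ι → ℂ)
    (hr : ∀ i, IsVol (dinv ρ D (H i)) (dinv ρ V (H i)) (r i)) :
    ∃ x : ℚ, x ≠ 0 ∧ ∏ i, r i ^ c i = x :=
  vol_relation (N := N) (stable_M hD) (stable_M hV) triv_M (str_M hsD) (str_M hsV) H hNH c h r
    fun i => isVol_M (hNH i) (hr i)

end

end Pool.Agent.Q246.VR
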